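import Pool.Statements.S00609
import Pool.Agent.J4H83.FinTree

set_option autoImplicit false
open Pool Pool.MP_042d8e_al Pool.Agent.J4H83.FinTree

namespace Pool.Agent.S00609

/-- There is a branch group (faithful, level-transitive on a locally finite rooted tree, finite-index rigid level stabilizers) with infinitely many pairwise inequivalent descending sequences of finite-index normal subgroups with trivial intersection. -/
theorem result :
    ∃ (G : Type) (_ : Group G) (V : Type) (_ : MulAction G V) (lev : V → ℕ) (par : V → V),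
      (∀ v w : V, lev v = 0 → lev w = 0 → v = w) ∧
      (∃ v : V, lev v = 0) ∧
      (∀ w : V, lev w = 0 → par w = w) ∧
      (∀ w : V, lev w ≠ 0 → lev (par w) + 1 = lev w) ∧
      (∀ n : ℕ, {v : V | lev v = n}.Finite) ∧
      (∀ v : V, ∃ w₁ w₂ : V, w₁ ≠ w₂ ∧ par w₁ = v ∧ par w₂ = v ∧
          lev w₁ = lev v + 1 ∧ lev w₂ = lev v + 1) ∧
      (∀ (g : G) (w : V), lev (g • w) = lev w ∧ par (g • w) = g • par w) ∧
      (∀ g : G, (∀ v : V, g • v = v) → g = 1) ∧
      (∀ v w : V, lev v = lev w → ∃ g : G, g • v = w) ∧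
      (∀ n : ℕ, (Subgroup.closure {g : G | ∃ v : V, lev v = n ∧
          ∀ w : V, (∀ k : ℕ, par^[k] w ≠ v) → g • w = w}).FiniteIndex) ∧
      ∃ M : ℕ → ℕ → Subgroup G,
        (∀ a : ℕ, Antitone (M a) ∧ (∀ i : ℕ, (M a i).Normal ∧ (M a i).FiniteIndex) ∧
            (⨅ i : ℕ, M a i) = ⊥) ∧
        (∀ a b : ℕ, a ≠ b →
            ¬ ((∀ i : ℕ, ∃ j : ℕ, M b j ≤ M a i) ∧ (∀ i : ℕ, ∃ j : ℕ, M a j ≤ M b i))) := by
  refine ⟨Fin2, inferInstance, List Bool, inferInstance, List.length, List.tail,
    ?_, ⟨[], rfl⟩, ?_, ?_, ?_, ?_, ?_, ?_, ?_, ?_,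
    fun a i => Mseq {n | (Nat.unpair n).1 = a} i, ?_, ?_⟩
  · intro v w hv hw
    rw [List.length_eq_zero_iff.mp hv, List.length_eq_zero_iff.mp hw]
  · intro w hw
    rw [List.length_eq_zero_iff.mp hw]; rfl
  · intro w hw
    rw [List.length_tail]; omega
  · intro n
    exact (finite_le n).subset (fun v hv => by
      have h : v.length = n := hv
      exact h.le)
  · intro v
    exact ⟨true :: v, false :: v, by simp, rfl, rfl, rfl, rfl⟩
  · intro g w
    exact ⟨g.2.1 w, g.2.2.1 w⟩
  · intro g hg
    ext1
    ext1 w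
    exact hg w
  · intro v w h
    obtain ⟨g, hg, hgv⟩ := exists_map v w h
    exact ⟨⟨g, hg⟩, hgv⟩
  · intro n
    have := St_finiteIndex n
    have hle : St n ≤ Subgroup.closure {g : Fin2 | ∃ v : List Bool, v.length = n ∧
          ∀ w : List Bool, (∀ k : ℕ, List.tail^[k] w ≠ v) → g • w = w} := by
      intro g hg
      have hfin : {v : List Bool | v.length = n}.Finite :=
        (finite_le n).subset (fun v hv => by
          have h : v.length = n := hv
          exact h.le)
      refine mem_closure_rist n hfin.toFinset (fun v hv => ?_) g hg ?_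
      · exact (Set.Finite.mem_toFinset hfin).mp hv
      · intro w hw
        by_cases hwn : w.length ≤ n
        · exact hg w hwn
        · exfalso
          have hl : (List.tail^[w.length - n] w).length = n := by
            rw [length_iter_tail]; omega
          exact hw _ ((Set.Finite.mem_toFinset hfin).mpr hl) ⟨w.length - n, rfl⟩
    exact Subgroup.finiteIndex_of_le hle
  · intro a
    exact ⟨Mseq_antitone _, fun i => ⟨Mseq_normal _ i, Mseq_finiteIndex _ i⟩, Mseq_iInf _⟩
  · intro a b hab h
    obtain ⟨j, hj⟩ := h.1 0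
    have h1 : (List.replicate (Nat.pair a j) true).length = Nat.pair a j := List.length_replicate
    set u : List Bool := List.replicate (Nat.pair a j) true with hu
    have hmem : (⟨swapAt u, swapAt_mem u⟩ : Fin2) ∈ Mseq {n | (Nat.unpair n).1 = b} j := by
      refine ⟨fun v hv => ?_, ?_⟩
      · apply swapFun_of_le
        rw [h1]
        exact hv.trans (Nat.right_le_pair a j)
      · apply lam_swap_not
        intro hc
        have hc' : (Nat.unpair u.length).1 = b := hc
        rw [h1, Nat.unpair_pair] at hc'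
        exact hab hc'
    have := hj hmem
    apply lam_swap {n | (Nat.unpair n).1 = a} u _ this.2
    show (Nat.unpair u.length).1 = a
    rw [h1, Nat.unpair_pair]

end Pool.Agent.S00609
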