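import Pool.Statements.S03469
import Pool.Agent.J4H47.EN.Main

set_option autoImplicit false
open Pool Pool.MP_ecbc69_al

namespace Pool.Agent.S03469

/-- For every unital ring satisfying a multilinear polynomial identity with a coefficient 1, and every n ≥ 3, the subgroup of GL_n(R) generated by elementary transvections I + rE_ij (i ≠ j) is normal in GL_n(R). -/
theorem result :
    ∀ (R : Type) [Ring R],
      (∃ d : ℕ, 0 < d ∧ ∃ c : Equiv.Perm (Fin d) → ℤ, c 1 = 1 ∧
        ∀ x : Fin d → R,
          ∑ σ : Equiv.Perm (Fin d), ((c σ : ℤ) : R) * (List.ofFn (fun i => x (σ i))).prod = 0) →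
      ∀ n : ℕ, 3 ≤ n →
        (Subgroup.closure
          {g : Matrix.GeneralLinearGroup (Fin n) R |
            ∃ i j : Fin n, i ≠ j ∧ ∃ r : R,
              (g : Matrix (Fin n) (Fin n) R) =
                1 + Matrix.of (fun a b => if a = i ∧ b = j then r else 0)}).Normal := by
  rintro R _ ⟨d, hd, c, hc, hf⟩ n hn
  have h := J4H47.EN.normE_of_PI (Fin n) (by rw [Fintype.card_fin]; exact hn) hd c hc R hf
  have hset : {g : Matrix.GeneralLinearGroup (Fin n) R |
      ∃ i j : Fin n, i ≠ j ∧ ∃ r : R,
        (g : Matrix (Fin n) (Fin n) R) =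
          1 + Matrix.of (fun a b => if a = i ∧ b = j then r else 0)} =
      {g : (Matrix (Fin n) (Fin n) R)ˣ | ∃ i j : Fin n, i ≠ j ∧ ∃ r ∈ (Set.univ : Set R),
        (g : Matrix (Fin n) (Fin n) R) = 1 + Matrix.single i j r} := by
    ext g
    have hm : ∀ (i j : Fin n) (r : R),
        (Matrix.of (fun a b => if a = i ∧ b = j then r else 0) : Matrix (Fin n) (Fin n) R) =
          Matrix.single i j r := by
      intro i j r
      ext a b
      simp only [Matrix.of_apply, Matrix.single_apply, eq_comm]
    simp only [Set.mem_setOf_eq, hm, Set.mem_univ, true_and]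
  rw [hset]
  constructor
  intro x hx g
  exact h g x hx

end Pool.Agent.S03469
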