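import Pool.Statements.S04452
import Pool.Agent.J4H82.MZ.Sphere
import Pool.Agent.J4H82.MZ.Diverge

set_option autoImplicit false
open MeasureTheory
open Pool Pool.MP_40db9a_an

namespace Pool.Agent.S04452

/-- The negation of the preceding statement: For smooth weakly cancelling T, kernel K of the multiplier ∣ξ∣^-α(T_e - i T_o), and p-homogeneous locally Lipschitz Φ: ∣∫Φ(K*f)∣ ≤ C‖f‖₁^p for all mean-zero test f iff Φ∘K integrates to 0 on the sphere. -/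
theorem result :
    ¬ (∀ (d ℓ : ℕ), 1 ≤ d → 1 ≤ ℓ → ∀ α : ℝ, 0 < α → α < (d : ℝ) →
  ∀ T : EuclideanSpace ℝ (Fin d) → (Fin ℓ → ℝ),
    ContDiff ℝ ((⊤ : ℕ∞) : WithTop ℕ∞) T →
    ∫ θ, T (θ : EuclideanSpace ℝ (Fin d))
        ∂((volume : Measure (EuclideanSpace ℝ (Fin d))).toSphere) = 0 →
  ∀ Φ : (Fin ℓ → ℝ) → ℝ, LocallyLipschitz Φ →
    (∀ t : ℝ, 0 < t → ∀ y : Fin ℓ → ℝ,
        Φ (t • y) = t ^ ((d : ℝ) / ((d : ℝ) - α)) * Φ y) →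
  ∀ K : EuclideanSpace ℝ (Fin d) → (Fin ℓ → ℝ),
    ContinuousOn K {x | x ≠ 0} →
    (∀ t : ℝ, 0 < t → ∀ x : EuclideanSpace ℝ (Fin d), x ≠ 0 →
        K (t • x) = t ^ (α - (d : ℝ)) • K x) →
    (∀ f : EuclideanSpace ℝ (Fin d) → ℝ,
        ContDiff ℝ ((⊤ : ℕ∞) : WithTop ℕ∞) f → HasCompactSupport f →
        ∀ x : EuclideanSpace ℝ (Fin d), ∀ j : Fin ℓ,
          (((∫ y, K (x - y) j * f y : ℝ)) : ℂ) =
            ∫ ξ, ((‖ξ‖ ^ (-α) : ℝ) : ℂ) *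
              ((((T (‖ξ‖⁻¹ • ξ) j + T (-(‖ξ‖⁻¹ • ξ)) j) / 2 : ℝ) : ℂ)
                - Complex.I * (((T (‖ξ‖⁻¹ • ξ) j - T (-(‖ξ‖⁻¹ • ξ)) j) / 2 : ℝ) : ℂ)) *
              (∫ y, Complex.exp (-(2 * (Real.pi : ℂ) * Complex.I * ((inner ℝ y ξ : ℝ) : ℂ)))
                    * ((f y : ℝ) : ℂ)) *
              Complex.exp (2 * (Real.pi : ℂ) * Complex.I * ((inner ℝ x ξ : ℝ) : ℂ))) →
    ((∃ C : ℝ, ∀ f : EuclideanSpace ℝ (Fin d) → ℝ,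
        ContDiff ℝ ((⊤ : ℕ∞) : WithTop ℕ∞) f → HasCompactSupport f →
        ∫ x, f x = 0 →
        |∫ x, Φ (fun j : Fin ℓ => ∫ y, K (x - y) j * f y)|
          ≤ C * (∫ x, |f x|) ^ ((d : ℝ) / ((d : ℝ) - α)))
      ↔ ∫ θ, Φ (K (θ : EuclideanSpace ℝ (Fin d)))
            ∂((volume : Measure (EuclideanSpace ℝ (Fin d))).toSphere) = 0)) := by
  intro H
  have hT : ContDiff ℝ ((⊤ : ℕ∞) : WithTop ℕ∞) J4H82.MZ.TT := by
    rw [contDiff_pi]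
    intro j
    unfold J4H82.MZ.TT
    fun_prop
  have hexp : ((3 : ℕ) : ℝ) / (((3 : ℕ) : ℝ) - 2) = ((3 : ℕ) : ℝ) := by norm_num
  have key := H 3 3 (by norm_num) (by norm_num) 2 (by norm_num) (by norm_num) J4H82.MZ.TT hT
    J4H82.MZ.integral_TT_zero J4H82.MZ.Ph J4H82.MZ.locallyLipschitz_Ph
    (fun t ht y => by rw [hexp, Real.rpow_natCast, J4H82.MZ.Ph_smul ht])
    J4H82.MZ.KK J4H82.MZ.continuousOn_KK
    (fun t ht x hx => by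
      funext j
      have h1 : (2 : ℝ) - ((3 : ℕ) : ℝ) = -1 := by norm_num
      rw [J4H82.MZ.KK_smul ht, h1, Real.rpow_neg_one]
      rfl)
    (fun f hf hc x j => by
      rw [J4H82.MZ.mult_identity hf hc x j]
      refine integral_congr_ae ?_
      have hne : ∀ᵐ ξ : EuclideanSpace ℝ (Fin 3), ξ ≠ 0 := by
        have : ({0}ᶜ : Set (EuclideanSpace ℝ (Fin 3))) ∈
            ae (volume : Measure (EuclideanSpace ℝ (Fin 3))) := by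
          rw [mem_ae_iff, compl_compl]
          exact measure_singleton 0
        filter_upwards [this] with y hy h
        exact hy (by simpa using h)
      filter_upwards [hne] with ξ hξ
      have hξ0 : 0 < ‖ξ‖ := norm_pos_iff.2 hξ
      have h1 : ‖ξ‖ ^ (-(2 : ℝ)) = (‖ξ‖ ^ 2)⁻¹ := by
        rw [Real.rpow_neg hξ0.le, show (2 : ℝ) = ((2 : ℕ) : ℝ) by norm_num, Real.rpow_natCast]
      have h2 : J4H82.MZ.TT (‖ξ‖⁻¹ • ξ) j = (‖ξ‖ ^ 2)⁻¹ * (ξ j * ξ (j + 1)) := by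
        unfold J4H82.MZ.TT
        simp only [PiLp.smul_apply, smul_eq_mul]
        field_simp
      have h3 : J4H82.MZ.TT (-(‖ξ‖⁻¹ • ξ)) j = (‖ξ‖ ^ 2)⁻¹ * (ξ j * ξ (j + 1)) := by
        rw [← h2]
        unfold J4H82.MZ.TT
        simp only [PiLp.neg_apply]
        ring
      have h4 : J4H82.MZ.fh f ξ = ∫ y, Complex.exp (-(2 * (Real.pi : ℂ) * Complex.I
          * ((inner ℝ y ξ : ℝ) : ℂ))) * ((f y : ℝ) : ℂ) := rfl
      rw [h1, h2, h3, ← h4]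
      have h5 : (ξ j * ξ (j + 1) / ‖ξ‖ ^ 4 : ℝ)
          = (‖ξ‖ ^ 2)⁻¹ * ((‖ξ‖ ^ 2)⁻¹ * (ξ j * ξ (j + 1))) := by
        field_simp
      rw [h5]
      push_cast
      ring)
  have hR : ∫ θ, J4H82.MZ.Ph (J4H82.MZ.KK (θ : EuclideanSpace ℝ (Fin 3)))
      ∂((volume : Measure (EuclideanSpace ℝ (Fin 3))).toSphere) = 0 := by
    simp_rw [J4H82.MZ.Ph_KK]
    simp
  have hL := key.2 hR
  refine J4H82.MZ.no_constant ?_
  obtain ⟨C, hC⟩ := hL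
  refine ⟨C, fun f hf hc h0 => ?_⟩
  have h1 := hC f hf hc h0
  rwa [hexp, Real.rpow_natCast] at h1

end Pool.Agent.S04452
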