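import Pool.Statements.S04624

set_option autoImplicit false
open MeasureTheory
open Pool Pool.MP_4d58d7_an

namespace Pool.Agent.S04624

/-- the sketching matrices used in the counterexample. -/
def W (a b s : ℝ) : Fin 2 → Fin 3 → ℝ := ![![a, 0, b], ![0, a, b * s]]

lemma W_form (a b s : ℝ) (x : Fin 2 → ℝ) :
    (∑ j, (∑ i, W a b s i j * x i) ^ 2) =
      a ^ 2 * (x 0 ^ 2 + x 1 ^ 2) + b ^ 2 * (x 0 + s * x 1) ^ 2 := by
  simp only [Fin.sum_univ_succ, Fin.sum_univ_zero, W]
  simp
  ring

/-- the design matrix. -/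
def A0 : Matrix (Fin 2) (Fin 1) ℝ := !![1; 0]
/-- the right-hand side. -/
def B0 : Matrix (Fin 2) (Fin 1) ℝ := !![0; 1]

lemma A0_rank : A0.rank = 1 := by
  apply le_antisymm
  · simpa using A0.rank_le_width
  · have h : (Matrix.transpose A0) * A0 = 1 := by
      ext i j
      fin_cases i; fin_cases j
      simp [A0, Matrix.mul_apply, Fin.sum_univ_succ]
    have h1 := Matrix.rank_mul_le_right (Matrix.transpose A0) A0
    rw [h, Matrix.rank_one] at h1
    simpa using h1

/-- the pseudoinverse of the sketched design. -/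
noncomputable def G0 (a b : ℝ) : Matrix (Fin 1) (Fin 3) ℝ :=
  !![a / (a ^ 2 + b ^ 2), 0, b / (a ^ 2 + b ^ 2)]

lemma sk (a b s : ℝ) : Matrix.transpose (Matrix.of (W a b s)) * A0 = !![a; 0; b] := by
  ext i j
  fin_cases j
  fin_cases i <;> simp [W, A0, Matrix.mul_apply, Fin.sum_univ_succ]

lemma skB (a b s : ℝ) : Matrix.transpose (Matrix.of (W a b s)) * B0 = !![0; a; b * s] := by
  ext i j
  fin_cases j
  fin_cases i <;> simp [W, B0, Matrix.mul_apply, Fin.sum_univ_succ]

lemma GA (a b : ℝ) (h : a ^ 2 + b ^ 2 ≠ 0) : G0 a b * (!![a; 0; b] : Matrix (Fin 3) (Fin 1) ℝ) = 1 := by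
  ext i j
  fin_cases i; fin_cases j
  simp [G0, Matrix.mul_apply, Fin.sum_univ_succ]
  field_simp

lemma not_event (a b s C e : ℝ) (hab : a ^ 2 + b ^ 2 ≠ 0)
    (hC : 1 + C * e < Real.sqrt ((b ^ 2 * s / (a ^ 2 + b ^ 2)) ^ 2 + 1)) :
    W a b s ∉ {ω : Fin 2 → Fin 3 → ℝ | ∀ G : Matrix (Fin 1) (Fin 3) ℝ,
          (Matrix.transpose (Matrix.of ω) * A0) * G * (Matrix.transpose (Matrix.of ω) * A0)
              = Matrix.transpose (Matrix.of ω) * A0 →
          G * (Matrix.transpose (Matrix.of ω) * A0) * G = G →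
          Matrix.transpose ((Matrix.transpose (Matrix.of ω) * A0) * G)
              = (Matrix.transpose (Matrix.of ω) * A0) * G →
          Matrix.transpose (G * (Matrix.transpose (Matrix.of ω) * A0))
              = G * (Matrix.transpose (Matrix.of ω) * A0) →
          ∀ X : Matrix (Fin 1) (Fin 1) ℝ,
            Real.sqrt (∑ i, ∑ j, ((A0 * (G * Matrix.transpose (Matrix.of ω) * B0) - B0) i j) ^ 2) ≤
              (1 + C * e) * Real.sqrt (∑ i, ∑ j, ((A0 * X - B0) i j) ^ 2)} := by
  intro hmem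
  rw [Set.mem_setOf_eq] at hmem
  have h := hmem (G0 a b)
  rw [sk, GA a b hab] at h
  have h1 := h (by rw [Matrix.mul_assoc, GA a b hab, Matrix.mul_one]) (by rw [Matrix.one_mul])
    (by
      ext i j
      fin_cases i <;> fin_cases j <;>
        simp [G0, Matrix.mul_apply] <;> ring)
    (by simp) 0
  have e1 : (∑ i, ∑ j, ((A0 * (0 : Matrix (Fin 1) (Fin 1) ℝ) - B0) i j) ^ 2) = 1 := by
    simp [B0, Fin.sum_univ_succ]
  have e2 : (∑ i, ∑ j, ((A0 * (G0 a b * Matrix.transpose (Matrix.of (W a b s)) * B0) - B0) i j) ^ 2)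
      = (b ^ 2 * s / (a ^ 2 + b ^ 2)) ^ 2 + 1 := by
    rw [Matrix.mul_assoc (G0 a b), skB]
    simp [A0, B0, G0, Matrix.mul_apply, Fin.sum_univ_succ]
    ring
  rw [e1, e2, Real.sqrt_one, mul_one] at h1
  exact absurd h1 (not_le.mpr hC)

/-- weights. -/
noncomputable def wt : Fin 4 → ENNReal :=
  ![ENNReal.ofReal (99/200), ENNReal.ofReal (99/200), ENNReal.ofReal (1/200), ENNReal.ofReal (1/200)]

/-- atoms. -/
noncomputable def at4 (e : ℝ) : Fin 4 → (Fin 2 → Fin 3 → ℝ) :=
  ![W (Real.sqrt (1 - e)) (Real.sqrt (1/198 + e)) 1, W (Real.sqrt (1 - e)) (Real.sqrt (1/198 + e)) (-1),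
    W (1/2) (1/2) 1, W (1/2) (1/2) (-1)]

/-- the law of the sketching matrix. -/
noncomputable def mu (e : ℝ) : Measure (Fin 2 → Fin 3 → ℝ) :=
  ∑ i : Fin 4, wt i • Measure.dirac (at4 e i)

lemma mu_apply (e : ℝ) (S : Set (Fin 2 → Fin 3 → ℝ)) :
    mu e S = ∑ i : Fin 4, wt i * S.indicator 1 (at4 e i) := by
  rw [mu, Measure.finset_sum_apply]
  simp only [Measure.smul_apply, Measure.dirac_apply, smul_eq_mul]

lemma wt_sum : (∑ i : Fin 4, wt i) = 1 := by
  simp only [wt, Fin.sum_univ_succ, Fin.sum_univ_zero]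
  simp only [Matrix.cons_val_zero, Matrix.cons_val_succ, add_zero]
  rw [← ENNReal.ofReal_add (by norm_num) (by norm_num), ← ENNReal.ofReal_add (by norm_num) (by norm_num),
    ← ENNReal.ofReal_add (by norm_num) (by norm_num)]
  norm_num

lemma mu_prob (e : ℝ) : IsProbabilityMeasure (mu e) := by
  constructor
  rw [mu_apply]
  simp [wt_sum]

lemma mu_integral (e : ℝ) (f : (Fin 2 → Fin 3 → ℝ) → ℝ) :
    ∫ ω, f ω ∂(mu e) = ∑ i : Fin 4, (wt i).toReal * f (at4 e i) := by
  rw [mu, integral_finset_sum_measure]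
  · apply Finset.sum_congr rfl
    intro i _
    rw [integral_smul_measure, integral_dirac, smul_eq_mul]
  · intro i _
    apply Integrable.smul_measure
    · exact integrable_dirac (by simp)
    · fin_cases i <;> simp [wt]

/-- The negation of the preceding statement: There are constants C and c₀>0 such that, for any isotropic n×k random matrix Ω that is a dimension-d OSI with injectivity 1−ε and failure 0.01, sketch-and-solve has error at most (1+Cε)·OPT with probability at least c₀. -/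
theorem result :
    ¬ (∃ C : ℝ, ∃ c₀ : ℝ, 0 < c₀ ∧
    ∀ (n d p k : ℕ), 0 < n → 0 < d → 0 < p → 0 < k →
    ∀ ε : ℝ, 0 < ε → ε < 1 →
    ∀ (A : Matrix (Fin n) (Fin d) ℝ), A.rank = d →
    ∀ (B : Matrix (Fin n) (Fin p) ℝ),
    ∀ (μ : Measure (Fin n → Fin k → ℝ)) [IsProbabilityMeasure μ],
      (∀ x : Fin n → ℝ, ∫ ω, (∑ j, (∑ i, ω i j * x i) ^ 2) ∂μ = ∑ i, x i ^ 2) →
      (∀ V : Submodule ℝ (Fin n → ℝ), Module.finrank ℝ V = d →
         ENNReal.ofReal (99 / 100) ≤
           μ {ω | ∀ x ∈ V, (1 - ε) * ∑ i, x i ^ 2 ≤ ∑ j, (∑ i, ω i j * x i) ^ 2}) →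
      ENNReal.ofReal c₀ ≤ μ {ω | ∀ G : Matrix (Fin d) (Fin k) ℝ,
          (Matrix.transpose (Matrix.of ω) * A) * G * (Matrix.transpose (Matrix.of ω) * A)
              = Matrix.transpose (Matrix.of ω) * A →
          G * (Matrix.transpose (Matrix.of ω) * A) * G = G →
          Matrix.transpose ((Matrix.transpose (Matrix.of ω) * A) * G)
              = (Matrix.transpose (Matrix.of ω) * A) * G →
          Matrix.transpose (G * (Matrix.transpose (Matrix.of ω) * A))
              = G * (Matrix.transpose (Matrix.of ω) * A) →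
          ∀ X : Matrix (Fin d) (Fin p) ℝ,
            Real.sqrt (∑ i, ∑ j, ((A * (G * Matrix.transpose (Matrix.of ω) * B) - B) i j) ^ 2) ≤
              (1 + C * ε) * Real.sqrt (∑ i, ∑ j, ((A * X - B) i j) ^ 2)}) := by
  rintro ⟨C, c₀, hc₀, H⟩
  -- choice of ε
  set e : ℝ := 1 / (100000 * (|C| + 1)) with he
  have hden : (0:ℝ) < 100000 * (|C| + 1) := by positivity
  have he0 : 0 < e := by positivity
  have hCe : |C| * e ≤ 1 / 100000 := by
    rw [he, mul_one_div, div_le_div_iff₀ hden (by norm_num)]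
    nlinarith [abs_nonneg C]
  have he1 : e ≤ 1 / 2 := by
    rw [he]
    rw [div_le_div_iff₀ hden (by norm_num)]
    nlinarith [abs_nonneg C]
  have hCe' : C * e ≤ 1 / 100000 := (mul_le_mul_of_nonneg_right (le_abs_self C) he0.le).trans hCe
  have := mu_prob e
  have hs1 : Real.sqrt (1 - e) ^ 2 = 1 - e := Real.sq_sqrt (by linarith)
  have hs2 : Real.sqrt (1 / 198 + e) ^ 2 = 1 / 198 + e := Real.sq_sqrt (by linarith)
  have h := H 2 1 1 3 (by norm_num) (by norm_num) (by norm_num) (by norm_num) e he0 (by linarith)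
    A0 A0_rank B0 (mu e) ?_ ?_
  · -- the event has probability zero
    rw [mu_apply] at h
    have hz : ∀ i : Fin 4, at4 e i ∉ {ω : Fin 2 → Fin 3 → ℝ | ∀ G : Matrix (Fin 1) (Fin 3) ℝ,
          (Matrix.transpose (Matrix.of ω) * A0) * G * (Matrix.transpose (Matrix.of ω) * A0)
              = Matrix.transpose (Matrix.of ω) * A0 →
          G * (Matrix.transpose (Matrix.of ω) * A0) * G = G →
          Matrix.transpose ((Matrix.transpose (Matrix.of ω) * A0) * G)
              = (Matrix.transpose (Matrix.of ω) * A0) * G →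
          Matrix.transpose (G * (Matrix.transpose (Matrix.of ω) * A0))
              = G * (Matrix.transpose (Matrix.of ω) * A0) →
          ∀ X : Matrix (Fin 1) (Fin 1) ℝ,
            Real.sqrt (∑ i, ∑ j, ((A0 * (G * Matrix.transpose (Matrix.of ω) * B0) - B0) i j) ^ 2) ≤
              (1 + C * e) * Real.sqrt (∑ i, ∑ j, ((A0 * X - B0) i j) ^ 2)} := by
      have key : ∀ x : ℝ, 1 / 199 ^ 2 ≤ x → 1 + C * e < Real.sqrt (x + 1) := by
        intro x hx
        refine lt_of_le_of_lt (by linarith : 1 + C * e ≤ 1 + 1 / 100000) ?_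
        apply Real.lt_sqrt_of_sq_lt
        nlinarith
      intro i
      fin_cases i
      · apply not_event
        · rw [hs1, hs2]; norm_num
        · apply key
          rw [hs1, hs2, show (1 - e + (1/198 + e)) = 199/198 by ring, ← one_div_pow]
          apply pow_le_pow_left₀ (by norm_num)
          rw [mul_one, div_div_eq_mul_div, div_le_div_iff₀ (by norm_num) (by norm_num)]
          linarith
      · apply not_event
        · rw [hs1, hs2]; norm_num
        · apply key
          rw [hs1, hs2, show (1 - e + (1/198 + e)) = 199/198 by ring, ← one_div_pow, mul_neg_one,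
            neg_div, neg_sq]
          apply pow_le_pow_left₀ (by norm_num)
          rw [div_div_eq_mul_div, div_le_div_iff₀ (by norm_num) (by norm_num)]
          linarith
      · apply not_event
        · norm_num
        · apply key
          norm_num
      · apply not_event
        · norm_num
        · apply key
          norm_num
    have : ENNReal.ofReal c₀ ≤ 0 := by
      refine h.trans (le_of_eq ?_)
      apply Finset.sum_eq_zero
      intro i _
      rw [Set.indicator_of_notMem (hz i), mul_zero]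
    have := ENNReal.ofReal_eq_zero.mp (le_antisymm this bot_le)
    linarith
  · -- isotropy
    intro x
    rw [mu_integral]
    simp only [Fin.sum_univ_four]
    simp only [at4, Matrix.cons_val_zero, Matrix.cons_val_one, Matrix.cons_val, W_form]
    have w0 : (wt 0).toReal = 99/200 := by simp [wt]; norm_num
    have w1 : (wt 1).toReal = 99/200 := by simp [wt]; norm_num
    have w2 : (wt 2).toReal = 1/200 := by simp [wt]
    have w3 : (wt 3).toReal = 1/200 := by simp [wt]
    rw [w0, w1, w2, w3, hs1, hs2, Fin.sum_univ_two]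
    ring
  · -- injectivity
    intro V _
    rw [mu_apply, Fin.sum_univ_four]
    have m0 : at4 e 0 ∈ {ω : Fin 2 → Fin 3 → ℝ | ∀ x ∈ V, (1 - e) * ∑ i, x i ^ 2 ≤ ∑ j, (∑ i, ω i j * x i) ^ 2} := by
      intro x _
      simp only [at4, Matrix.cons_val_zero, W_form]
      rw [hs1, hs2, Fin.sum_univ_two]
      nlinarith [sq_nonneg (x 0 + 1 * x 1)]
    have m1 : at4 e 1 ∈ {ω : Fin 2 → Fin 3 → ℝ | ∀ x ∈ V, (1 - e) * ∑ i, x i ^ 2 ≤ ∑ j, (∑ i, ω i j * x i) ^ 2} := by
      intro x _
      simp only [at4, Matrix.cons_val_one, Matrix.cons_val_zero, W_form]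
      rw [hs1, hs2, Fin.sum_univ_two]
      nlinarith [sq_nonneg (x 0 + -1 * x 1)]
    rw [Set.indicator_of_mem m0, Set.indicator_of_mem m1]
    have : ENNReal.ofReal (99/100) = wt 0 * 1 + wt 1 * 1 := by
      simp only [wt, Matrix.cons_val_zero, Matrix.cons_val_one, mul_one]
      rw [← ENNReal.ofReal_add (by norm_num) (by norm_num)]
      norm_num
    rw [this]
    simp only [Pi.one_apply]
    rw [add_assoc (wt 0 * 1 + wt 1 * 1)]
    exact le_self_add

end Pool.Agent.S04624
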