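import Pool.Statements.S05335

set_option autoImplicit false
open Pool Pool.MP_8c09cc_an

namespace Pool.Agent.S05335

open Filter Topology Set

section prep

variable {k : ℕ} {X : Type} [NormedAddCommGroup X] [NormedSpace ℂ X]
  {K : Type} [TopologicalSpace K] [CompactSpace K]

lemma upd (m : Fin k → C(K, X)) (d : DecidableEq (Fin k)) (i : Fin k) (z : C(K, X)) (t : K) :
    (fun j => (Function.update m i z j) t) = Function.update (fun j => m j t) i (z t) := by
  funext j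
  by_cases h : j = i
  · subst h; simp
  · simp [Function.update_of_ne h]

/-- the pointwise lift of a multilinear map. -/
noncomputable def lift (A : ContinuousMultilinearMap ℂ (fun _ : Fin k => X) X) :
    ContinuousMultilinearMap ℂ (fun _ : Fin k => C(K, X)) C(K, X) :=
  MultilinearMap.mkContinuous
   { toFun := fun f => ⟨fun t => A (fun i => f i t), by
        have := A.cont
        exact A.cont.comp (continuous_pi fun i => (f i).continuous)⟩
     map_update_add' := by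
       intro d m i x y
       ext t
       show A (fun j => (Function.update m i (x + y) j) t) =
         A (fun j => (Function.update m i x j) t) + A (fun j => (Function.update m i y j) t)
       rw [upd, upd, upd]
       exact A.map_update_add _ i (x t) (y t)
     map_update_smul' := by
       intro d m i c x
       ext t
       show A (fun j => (Function.update m i (c • x) j) t) =
         c • A (fun j => (Function.update m i x j) t)
       rw [upd, upd]
       exact A.map_update_smul _ i c (x t) } ‖A‖ (by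
     intro m
     refine (ContinuousMap.norm_le _ (by positivity)).2 (fun t => ?_)
     refine (A.le_opNorm _).trans ?_
     apply mul_le_mul_of_nonneg_left _ (norm_nonneg _)
     exact Finset.prod_le_prod (fun i _ => norm_nonneg _) (fun i _ => (m i).norm_coe_le_norm t))

lemma lift_apply (A : ContinuousMultilinearMap ℂ (fun _ : Fin k => X) X) (f : Fin k → C(K, X))
    (t : K) : (lift A f) t = A (fun i => f i t) := rfl

lemma norm_P (A : ContinuousMultilinearMap ℂ (fun _ : Fin k => X) X) (x : X) (hx : ‖x‖ ≤ 1) :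
    ‖A (fun _ => x)‖ ≤ ‖A‖ := by
  refine (A.le_opNorm _).trans ?_
  have : (∏ _i : Fin k, ‖x‖) ≤ 1 := Finset.prod_le_one (fun _ _ => norm_nonneg _) (fun _ _ => hx)
  calc ‖A‖ * ∏ _i : Fin k, ‖x‖ ≤ ‖A‖ * 1 := mul_le_mul_of_nonneg_left this (norm_nonneg _)
    _ = ‖A‖ := mul_one _

lemma P_lip (A : ContinuousMultilinearMap ℂ (fun _ : Fin k => X) X) (x y : X) (hx : ‖x‖ ≤ 1)
    (hy : ‖y‖ ≤ 1) : ‖A (fun _ => x) - A (fun _ => y)‖ ≤ ‖A‖ * k * ‖x - y‖ := by
  have h := A.norm_image_sub_le (fun _ => x) (fun _ => y)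
  have h1 : max ‖(fun _ : Fin k => x)‖ ‖(fun _ : Fin k => y)‖ ≤ 1 :=
    max_le ((pi_norm_const_le x).trans hx) ((pi_norm_const_le y).trans hy)
  have h2 : max ‖(fun _ : Fin k => x)‖ ‖(fun _ : Fin k => y)‖ ^ (Fintype.card (Fin k) - 1) ≤ 1 :=
    pow_le_one₀ (le_max_of_le_left (norm_nonneg _)) h1
  have h3 : ‖(fun _ : Fin k => x) - (fun _ : Fin k => y)‖ ≤ ‖x - y‖ := by
    have : (fun _ : Fin k => x) - (fun _ : Fin k => y) = fun _ => x - y := rfl
    rw [this]
    exact pi_norm_const_le _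
  refine h.trans ?_
  rw [Fintype.card_fin] at h2 ⊢
  calc ‖A‖ * k * max ‖(fun _ : Fin k => x)‖ ‖(fun _ : Fin k => y)‖ ^ (k - 1)
        * ‖(fun _ : Fin k => x) - (fun _ : Fin k => y)‖ ≤ ‖A‖ * k * 1 * ‖x - y‖ := by
        gcongr
    _ = ‖A‖ * k * ‖x - y‖ := by ring

lemma core (A : ContinuousMultilinearMap ℂ (fun _ : Fin k => X) X) (V : ℝ) (hV : 0 ≤ V)
    (hA : ∀ (x : X) (f : X →L[ℂ] ℂ), ‖x‖ = 1 → ‖f‖ = 1 → f x = 1 → ‖f (A (fun _ => x))‖ ≤ V)
    (a : ℂ) (x : X) (hx : ‖x‖ ≤ 1) :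
    ‖x + a • A (fun _ => x)‖ ≤ 1 + ‖a‖ * (V + 2 * k * ‖A‖ ^ 2 * ‖a‖) := by
  set w := x + a • A (fun _ => x) with hw
  by_cases h1 : ‖w‖ ≤ 1
  · have : 0 ≤ ‖a‖ * (V + 2 * k * ‖A‖ ^ 2 * ‖a‖) := by positivity
    linarith
  push Not at h1
  have hw0 : ‖w‖ ≠ 0 := by positivity
  have hwc : (‖w‖ : ℂ) ≠ 0 := by exact_mod_cast hw0
  obtain ⟨g, hg, hgw⟩ := exists_dual_vector ℂ w hw0
  set x' : X := (‖w‖ : ℂ)⁻¹ • w with hx'
  have hx'n : ‖x'‖ = 1 := by
    rw [hx', norm_smul, norm_inv, Complex.norm_real, norm_norm, inv_mul_cancel₀ hw0]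
  have hgx' : g x' = 1 := by
    rw [hx', map_smul, hgw, smul_eq_mul]
    exact inv_mul_cancel₀ hwc
  have hwx : ‖w - x‖ ≤ ‖a‖ * ‖A‖ := by
    rw [hw, add_sub_cancel_left, norm_smul]
    exact mul_le_mul_of_nonneg_left (norm_P A x hx) (norm_nonneg _)
  have hwx' : ‖w - x'‖ ≤ ‖a‖ * ‖A‖ := by
    have e1 : w - x' = ((1 : ℂ) - (‖w‖ : ℂ)⁻¹) • w := by
      rw [sub_smul, one_smul]
    have e2 : ‖w - x'‖ = ‖w‖ - 1 := by
      rw [e1, norm_smul]
      have : ((1 : ℂ) - (‖w‖ : ℂ)⁻¹) = ((1 - ‖w‖⁻¹ : ℝ) : ℂ) := by push_cast; rfl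
      rw [this, Complex.norm_real, Real.norm_eq_abs, abs_of_nonneg]
      · rw [sub_mul, one_mul, inv_mul_cancel₀ hw0]
      · have : ‖w‖⁻¹ ≤ 1 := inv_le_one_of_one_le₀ h1.le
        linarith
    rw [e2]
    have : ‖w‖ ≤ ‖x‖ + ‖w - x‖ := by
      calc ‖w‖ = ‖x + (w - x)‖ := by congr 1; abel
        _ ≤ _ := norm_add_le _ _
    linarith
  have hxx' : ‖x - x'‖ ≤ 2 * (‖a‖ * ‖A‖) := by
    calc ‖x - x'‖ = ‖(w - x') - (w - x)‖ := by congr 1; abel
      _ ≤ ‖w - x'‖ + ‖w - x‖ := norm_sub_le _ _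
      _ ≤ _ := by linarith
  have hP := P_lip A x x' hx hx'n.le
  have hbound : ‖g (A (fun _ => x))‖ ≤ V + ‖A‖ * k * (2 * (‖a‖ * ‖A‖)) := by
    have e : g (A (fun _ => x)) = g (A (fun _ => x')) + g (A (fun _ => x) - A (fun _ => x')) := by
      rw [map_sub]; ring
    rw [e]
    refine (norm_add_le _ _).trans ?_
    apply add_le_add (hA x' g hx'n hg hgx')
    refine (g.le_opNorm _).trans ?_
    rw [hg, one_mul]
    refine hP.trans ?_
    gcongr
  have hfin : ‖w‖ ≤ 1 + ‖a‖ * ‖g (A (fun _ => x))‖ := by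
    have e : (‖w‖ : ℂ) = g x + a * g (A (fun _ => x)) := by
      have hgw' : g w = (‖w‖ : ℂ) := hgw
      rw [← hgw', hw, map_add, map_smul, smul_eq_mul]
    have e2 : ‖w‖ = ‖(‖w‖ : ℂ)‖ := by rw [Complex.norm_real, norm_norm]
    rw [e2, e]
    refine (norm_add_le _ _).trans ?_
    rw [norm_mul]
    have : ‖g x‖ ≤ 1 := by
      refine (g.le_opNorm _).trans ?_
      rw [hg, one_mul]
      exact hx
    linarith
  refine hfin.trans ?_
  have := mul_le_mul_of_nonneg_left hbound (norm_nonneg a)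
  nlinarith [this]

lemma radius_le (A : ContinuousMultilinearMap ℂ (fun _ : Fin k => X) X) (V : ℝ) (hV : 0 ≤ V)
    (hA : ∀ (x : X) (f : X →L[ℂ] ℂ), ‖x‖ = 1 → ‖f‖ = 1 → f x = 1 → ‖f (A (fun _ => x))‖ ≤ V)
    (F : C(K, X)) (f : C(K, X) →L[ℂ] ℂ) (hF : ‖F‖ = 1) (hf : ‖f‖ = 1) (hfF : f F = 1) :
    ‖f (lift A (fun _ => F))‖ ≤ V := by
  set z := f (lift A (fun _ => F)) with hz
  by_cases hz0 : ‖z‖ = 0
  · rw [hz0]; exact hV
  have hzc : (‖z‖ : ℂ) ≠ 0 := by exact_mod_cast hz0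
  -- unimodular factor
  set θ : ℂ := (starRingEnd ℂ z) / ‖z‖ with hθ
  have hθz : θ * z = ‖z‖ := by
    rw [hθ, div_mul_eq_mul_div, mul_comm, Complex.mul_conj, Complex.normSq_eq_norm_sq]
    push_cast
    rw [sq, mul_div_assoc, div_self hzc, mul_one]
  have hθn : ‖θ‖ = 1 := by
    rw [hθ, norm_div, Complex.norm_real, norm_norm, RCLike.norm_conj, div_self hz0]
  have key : ∀ α : ℝ, 0 < α → ‖z‖ ≤ V + 2 * k * ‖A‖ ^ 2 * α := by
    intro α hα
    have hbd : ‖F + ((α : ℂ) * θ) • lift A (fun _ => F)‖ ≤ 1 + α * (V + 2 * k * ‖A‖ ^ 2 * α) := by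
      refine (ContinuousMap.norm_le _ (by positivity)).2 (fun t => ?_)
      have hn : ‖(α : ℂ) * θ‖ = α := by
        rw [norm_mul, hθn, mul_one, Complex.norm_real, Real.norm_eq_abs, abs_of_pos hα]
      have := core A V hV hA ((α : ℂ) * θ) (F t) ((F.norm_coe_le_norm t).trans hF.le)
      rw [hn] at this
      exact this
    have hval : f (F + ((α : ℂ) * θ) • lift A (fun _ => F)) = ((1 + α * ‖z‖ : ℝ) : ℂ) := by
      rw [map_add, map_smul, hfF, ← hz, smul_eq_mul, mul_assoc, hθz]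
      push_cast; rfl
    have h1 : ‖f (F + ((α : ℂ) * θ) • lift A (fun _ => F))‖ ≤ 1 + α * (V + 2 * k * ‖A‖ ^ 2 * α) := by
      refine (f.le_opNorm _).trans ?_
      rw [hf, one_mul]
      exact hbd
    rw [hval, Complex.norm_real, Real.norm_eq_abs, abs_of_nonneg (by positivity)] at h1
    have h2 : α * ‖z‖ ≤ α * (V + 2 * k * ‖A‖ ^ 2 * α) := by linarith
    exact le_of_mul_le_mul_left h2 hα
  apply le_of_forall_pos_le_add
  intro ε hε
  set M : ℝ := 2 * k * ‖A‖ ^ 2 + 1 with hM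
  have hMpos : 0 < M := by positivity
  have := key (ε / M) (by positivity)
  refine this.trans ?_
  have h3 : 2 * k * ‖A‖ ^ 2 * (ε / M) ≤ ε := by
    rw [mul_div_assoc', div_le_iff₀ hMpos, hM]
    nlinarith
  linarith

/-- `x ↦ φ x`. -/
noncomputable def mulE (φ : C(K, ℝ)) (h : ∀ t, φ t ∈ Icc (0:ℝ) 1) : X →L[ℂ] C(K, X) :=
  LinearMap.mkContinuous
    { toFun := fun x => ⟨fun t => ((φ t : ℝ) : ℂ) • x, by fun_prop⟩
      map_add' := fun x y => by ext t; exact smul_add _ _ _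
      map_smul' := fun c x => by ext t; exact smul_comm _ _ _ } 1 (fun x => by
    rw [one_mul]
    refine (ContinuousMap.norm_le _ (norm_nonneg _)).2 (fun t => ?_)
    show ‖((φ t : ℝ) : ℂ) • x‖ ≤ ‖x‖
    rw [norm_smul, Complex.norm_real, Real.norm_eq_abs, abs_of_nonneg (h t).1]
    exact mul_le_of_le_one_left (norm_nonneg _) (h t).2)

lemma mulE_apply (φ : C(K, ℝ)) (h : ∀ t, φ t ∈ Icc (0:ℝ) 1) (x : X) (t : K) :
    (mulE φ h x) t = ((φ t : ℝ) : ℂ) • x := rfl

/-- `(1 - φ) f`. -/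
noncomputable def mulD (φ : C(K, ℝ)) (f : C(K, X)) : C(K, X) :=
  ⟨fun t => ((1 - φ t : ℝ) : ℂ) • f t, by fun_prop⟩

lemma mulD_apply (φ : C(K, ℝ)) (f : C(K, X)) (t : K) :
    (mulD φ f) t = ((1 - φ t : ℝ) : ℂ) • f t := rfl

lemma maxmod (A : ContinuousMultilinearMap ℂ (fun _ : Fin k => C(K, X)) C(K, X)) (D : C(K, X))
    (E : X →L[ℂ] C(K, X)) (t₀ : K) (v : X) (l₀ : ℂ) (hl : ‖l₀‖ ≤ 1) :
    ∃ l : ℂ, ‖l‖ = 1 ∧ ‖(A (fun _ => D + E (l₀ • v))) t₀‖ ≤ ‖(A (fun _ => D + E (l • v))) t₀‖ := by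
  let h : ℂ → X := fun l => (A (fun _ => D + E (l • v))) t₀
  have hd : Differentiable ℂ h := by
    have h1 : Differentiable ℂ (fun l : ℂ => (fun _ : Fin k => D + E (l • v))) := by
      rw [differentiable_pi]
      intro i
      have : Differentiable ℂ (fun l : ℂ => E (l • v)) :=
        E.differentiable.comp (differentiable_id.smul_const v)
      exact this.const_add D
    have h2 : Differentiable ℂ (fun l : ℂ => A (fun _ : Fin k => D + E (l • v))) :=
      (A.contDiff (n := 1)).differentiable (by norm_num) |>.comp h1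
    exact (ContinuousMap.evalCLM ℂ t₀ : C(K, X) →L[ℂ] X).differentiable.comp h2
  obtain ⟨l, hlf, hmax⟩ := Complex.exists_mem_frontier_isMaxOn_norm (f := h)
    (U := Metric.ball (0:ℂ) 1) Metric.isBounded_ball (Metric.nonempty_ball.mpr one_pos)
    hd.diffContOnCl
  rw [frontier_ball (0:ℂ) one_ne_zero] at hlf
  refine ⟨l, by simpa using hlf, ?_⟩
  have hmem : l₀ ∈ closure (Metric.ball (0:ℂ) 1) := by
    rw [closure_ball (0:ℂ) one_ne_zero]
    simpa using hl
  exact hmax hmem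

end prep

/-- For every k ≥ 1, nontrivial complex Banach space X and nonempty compact Hausdorff K, the k-th polynomial numerical index of C(K,X) equals that of X: a constant c bounds v(P) ≥ c‖P‖ for all k-homogeneous P on X iff it does on C(K,X). -/
theorem result :
  ∀ (k : ℕ), 1 ≤ k →
  ∀ (X : Type) [NormedAddCommGroup X] [NormedSpace ℂ X] [CompleteSpace X] [Nontrivial X],
  ∀ (K : Type) [TopologicalSpace K] [CompactSpace K] [T2Space K] [Nonempty K],
  ∀ c : ℝ,
    (∀ (A : ContinuousMultilinearMap ℂ (fun _ : Fin k => X) X) (y : X), ‖y‖ ≤ 1 →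
      ∀ ε : ℝ, 0 < ε →
        ∃ (x : X) (f : X →L[ℂ] ℂ), ‖x‖ = 1 ∧ ‖f‖ = 1 ∧ f x = 1 ∧
          c * ‖A (fun _ => y)‖ - ε < ‖f (A (fun _ => x))‖) ↔
    (∀ (A : ContinuousMultilinearMap ℂ (fun _ : Fin k => C(K, X)) C(K, X)) (y : C(K, X)),
      ‖y‖ ≤ 1 → ∀ ε : ℝ, 0 < ε →
        ∃ (x : C(K, X)) (f : C(K, X) →L[ℂ] ℂ), ‖x‖ = 1 ∧ ‖f‖ = 1 ∧ f x = 1 ∧
          c * ‖A (fun _ => y)‖ - ε < ‖f (A (fun _ => x))‖) := by
  intro k _ X _ _ _ _ K _ _ _ _ c
  constructor
  · intro H A y hy ε hε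
    -- a general tool: from a unit vector `g` with `g t₀ = x`, `f x = 1`
    have tool : ∀ (t₀ : K) (G : C(K, X)) (f : X →L[ℂ] ℂ), ‖G‖ ≤ 1 → ‖G t₀‖ = 1 → ‖f‖ = 1 →
        f (G t₀) = 1 → ‖G‖ = 1 ∧ ‖f.comp (ContinuousMap.evalCLM ℂ t₀ : C(K, X) →L[ℂ] X)‖ = 1 := by
      intro t₀ G f hG hGt hf hfG
      have hG1 : ‖G‖ = 1 := le_antisymm hG (hGt ▸ G.norm_coe_le_norm t₀)
      refine ⟨hG1, le_antisymm ?_ ?_⟩
      · refine ContinuousLinearMap.opNorm_le_bound _ zero_le_one (fun u => ?_)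
        show ‖f (u t₀)‖ ≤ 1 * ‖u‖
        refine (f.le_opNorm _).trans ?_
        rw [hf]
        exact mul_le_mul_of_nonneg_left (u.norm_coe_le_norm t₀) zero_le_one
      · have := (f.comp (ContinuousMap.evalCLM ℂ t₀ : C(K, X) →L[ℂ] X)).le_opNorm G
        rw [hG1, mul_one] at this
        have e : (f.comp (ContinuousMap.evalCLM ℂ t₀ : C(K, X) →L[ℂ] X)) G = f (G t₀) := rfl
        rw [e, hfG, norm_one] at this
        exact this
    -- trivial case
    rcases le_or_gt c 0 with hc | hc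
    · obtain ⟨u, hu⟩ : ∃ u : X, ‖u‖ = 1 := exists_norm_eq X zero_le_one
      obtain ⟨f, hf, hfu⟩ := exists_dual_vector ℂ u (by rw [hu]; exact one_ne_zero)
      obtain ⟨t₀⟩ := (inferInstance : Nonempty K)
      have hG := tool t₀ (ContinuousMap.const K u) f
        ((ContinuousMap.norm_le _ zero_le_one).2 (fun t => hu.le)) hu hf (by
          show f u = 1
          rw [hfu, hu]; rfl)
      refine ⟨ContinuousMap.const K u, _, hG.1, hG.2, ?_, ?_⟩
      · show f u = 1
        rw [hfu, hu]; rfl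
      · refine lt_of_lt_of_le ?_ (norm_nonneg _)
        have : c * ‖A (fun _ => y)‖ ≤ 0 := mul_nonpos_of_nonpos_of_nonneg hc (norm_nonneg _)
        linarith
    -- main case
    obtain ⟨t₀, -, ht₀⟩ := (isCompact_univ (X := K)).exists_isMaxOn univ_nonempty
      ((A (fun _ => y)).continuous.norm.continuousOn)
    have ht₀' : ‖(A (fun _ => y)) t₀‖ = ‖A (fun _ => y)‖ := by
      apply le_antisymm ((A (fun _ => y)).norm_coe_le_norm t₀)
      exact (ContinuousMap.norm_le _ (norm_nonneg _)).2 (fun t => ht₀ (mem_univ t))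
    set η : ℝ := ε / (2 * c) with hη
    have hηpos : 0 < η := by positivity
    -- continuity
    have hcont : Continuous (fun g : C(K, X) => A (fun _ => g)) :=
      A.cont.comp (continuous_pi fun _ => continuous_id)
    obtain ⟨δ, hδ, hδA⟩ := Metric.continuous_iff.mp hcont y η hηpos
    -- Urysohn
    have hs : IsClosed {t : K | δ / 2 ≤ ‖y t - y t₀‖} :=
      isClosed_le continuous_const (by fun_prop)
    obtain ⟨φ, hφ0, hφ1, hφ⟩ := exists_continuous_zero_one_of_isClosed hs (isClosed_singleton (x := t₀))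
      (by
        rw [Set.disjoint_singleton_right]
        intro h
        have h' : δ / 2 ≤ ‖y t₀ - y t₀‖ := h
        rw [sub_self, norm_zero] at h'
        linarith)
    have hφt : φ t₀ = 1 := hφ1 rfl
    set D := mulD φ y with hD
    set E : X →L[ℂ] C(K, X) := mulE φ hφ with hE
    -- first approximation
    have happ : ‖(D + E (y t₀)) - y‖ < δ := by
      refine lt_of_le_of_lt ((ContinuousMap.norm_le _ (by positivity : (0:ℝ) ≤ δ / 2)).2
        (fun t => ?_)) (half_lt_self hδ)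
      have e : ((D + E (y t₀)) - y) t = ((φ t : ℝ) : ℂ) • (y t₀ - y t) := by
        show (((1 - φ t : ℝ) : ℂ) • y t + ((φ t : ℝ) : ℂ) • y t₀) - y t = _
        push_cast
        rw [sub_smul, one_smul, smul_sub]
        abel
      rw [e, norm_smul, Complex.norm_real, Real.norm_eq_abs, abs_of_nonneg (hφ t).1]
      by_cases hts : δ / 2 ≤ ‖y t - y t₀‖
      · have : φ t = 0 := hφ0 hts
        rw [this, zero_mul]
        positivity
      · push Not at hts
        rw [norm_sub_rev] at hts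
        calc φ t * ‖y t₀ - y t‖ ≤ 1 * (δ / 2) :=
              mul_le_mul (hφ t).2 hts.le (norm_nonneg _) zero_le_one
          _ = δ / 2 := one_mul _
    have happ2 : ‖A (fun _ => y)‖ - η ≤ ‖(A (fun _ => D + E (y t₀))) t₀‖ := by
      have h1 := hδA (D + E (y t₀)) (by rw [dist_eq_norm]; exact happ)
      rw [dist_eq_norm] at h1
      have h2 : ‖(A (fun _ => D + E (y t₀)) - A (fun _ => y)) t₀‖ ≤ η :=
        ((A (fun _ => D + E (y t₀)) - A (fun _ => y)).norm_coe_le_norm t₀).trans h1.le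
      have h3 : (A (fun _ => D + E (y t₀)) - A (fun _ => y)) t₀
        = (A (fun _ => D + E (y t₀))) t₀ - (A (fun _ => y)) t₀ := rfl
      rw [h3] at h2
      have h4 := norm_sub_norm_le ((A (fun _ => y)) t₀) ((A (fun _ => D + E (y t₀))) t₀)
      rw [norm_sub_rev] at h4
      rw [← ht₀']
      linarith
    -- write y t₀ = l₀ • v with v a unit vector
    obtain ⟨v, l₀, hv, hl₀, hlv⟩ : ∃ (v : X) (l₀ : ℂ), ‖v‖ = 1 ∧ ‖l₀‖ ≤ 1 ∧ y t₀ = l₀ • v := by
      by_cases h0 : y t₀ = 0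
      · obtain ⟨u, hu⟩ : ∃ u : X, ‖u‖ = 1 := exists_norm_eq X zero_le_one
        exact ⟨u, 0, hu, by simp, by rw [h0, zero_smul]⟩
      · have h1 : ‖y t₀‖ ≠ 0 := norm_ne_zero_iff.mpr h0
        have h1c : (‖y t₀‖ : ℂ) ≠ 0 := by exact_mod_cast h1
        refine ⟨(‖y t₀‖ : ℂ)⁻¹ • y t₀, ‖y t₀‖, ?_, ?_, ?_⟩
        · rw [norm_smul, norm_inv, Complex.norm_real, norm_norm, inv_mul_cancel₀ h1]
        · rw [Complex.norm_real, norm_norm]
          exact (y.norm_coe_le_norm t₀).trans hy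
        · rw [smul_smul, mul_inv_cancel₀ h1c, one_smul]
    obtain ⟨l, hl, hmax⟩ := maxmod A D E t₀ v l₀ hl₀
    rw [hlv] at happ2
    set u : X := l • v with hu
    have hun : ‖u‖ = 1 := by rw [hu, norm_smul, hl, hv, one_mul]
    obtain ⟨g, hg, hgu⟩ := exists_dual_vector ℂ u (by rw [hun]; exact one_ne_zero)
    rw [hun] at hgu
    have hgu' : g u = 1 := by rw [hgu]; rfl
    set L : X →L[ℂ] C(K, X) := g.smulRight D + E with hL
    have hLapp : ∀ (x : X) (t : K), (L x) t = (g x) • (((1 - φ t : ℝ) : ℂ) • y t) + ((φ t : ℝ) : ℂ) • x :=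
      fun x t => rfl
    have hLu : L u = D + E u := by
      ext t
      rw [hLapp, hgu', one_smul]
      rfl
    have hLn : ∀ x : X, ‖x‖ ≤ 1 → ‖L x‖ ≤ 1 := by
      intro x hx
      refine (ContinuousMap.norm_le _ zero_le_one).2 (fun t => ?_)
      rw [hLapp]
      have a1 : ‖g x‖ ≤ 1 := by
        refine (g.le_opNorm _).trans ?_
        rw [hg, one_mul]; exact hx
      have a2 : ‖y t‖ ≤ 1 := (y.norm_coe_le_norm t).trans hy
      have a3 := (hφ t).1
      have a4 := (hφ t).2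
      calc ‖(g x) • (((1 - φ t : ℝ) : ℂ) • y t) + ((φ t : ℝ) : ℂ) • x‖
          ≤ ‖(g x) • (((1 - φ t : ℝ) : ℂ) • y t)‖ + ‖((φ t : ℝ) : ℂ) • x‖ := norm_add_le _ _
        _ = ‖g x‖ * ((1 - φ t) * ‖y t‖) + φ t * ‖x‖ := by
            rw [norm_smul, norm_smul, norm_smul, Complex.norm_real, Complex.norm_real,
              Real.norm_eq_abs, Real.norm_eq_abs, abs_of_nonneg a3, abs_of_nonneg (by linarith)]
        _ ≤ 1 * ((1 - φ t) * 1) + φ t * 1 := by
            apply add_le_add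
            · apply mul_le_mul a1 _ _ zero_le_one
              · exact mul_le_mul_of_nonneg_left a2 (by linarith)
              · exact mul_nonneg (by linarith) (norm_nonneg _)
            · exact mul_le_mul_of_nonneg_left hx a3
        _ = 1 := by ring
    have hLt : ∀ x : X, (L x) t₀ = x := by
      intro x
      rw [hLapp, hφt]
      simp
    let B : ContinuousMultilinearMap ℂ (fun _ : Fin k => X) X :=
      (ContinuousMap.evalCLM ℂ t₀ : C(K, X) →L[ℂ] X).compContinuousMultilinearMap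
        (A.compContinuousLinearMap (fun _ => L))
    have hB : ∀ x : X, B (fun _ => x) = (A (fun _ => L x)) t₀ := fun x => rfl
    obtain ⟨x, f, hx, hf, hfx, hlt⟩ := H B u hun.le (ε / 2) (half_pos hε)
    have hG := tool t₀ (L x) f (hLn x hx.le) (by rw [hLt]; exact hx) hf (by rw [hLt]; exact hfx)
    refine ⟨L x, f.comp (ContinuousMap.evalCLM ℂ t₀ : C(K, X) →L[ℂ] X), hG.1, hG.2, ?_, ?_⟩
    · show f ((L x) t₀) = 1
      rw [hLt, hfx]
    · have e : (f.comp (ContinuousMap.evalCLM ℂ t₀ : C(K, X) →L[ℂ] X)) (A (fun _ => L x))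
        = f (B (fun _ => x)) := rfl
      rw [e]
      refine lt_of_le_of_lt ?_ hlt
      rw [hB, hLu]
      have h5 : ‖A (fun _ => y)‖ - η ≤ ‖(A (fun _ => D + E u)) t₀‖ := happ2.trans hmax
      have h6 := mul_le_mul_of_nonneg_left h5 hc.le
      have h7 : c * η = ε / 2 := by
        rw [hη]; field_simp
      rw [mul_sub, h7] at h6
      linarith
  · intro H A y hy ε hε
    by_contra hcon
    push Not at hcon
    have hV : 0 ≤ c * ‖A (fun _ => y)‖ - ε := by
      obtain ⟨u, hu⟩ : ∃ u : X, ‖u‖ = 1 := exists_norm_eq X zero_le_one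
      obtain ⟨f, hf, hfu⟩ := exists_dual_vector ℂ u (by rw [hu]; exact one_ne_zero)
      exact (norm_nonneg _).trans (hcon u f hu hf (by rw [hfu, hu]; rfl))
    have hrad := radius_le (K := K) A (c * ‖A (fun _ => y)‖ - ε) hV hcon
    obtain ⟨F, f, hF, hf, hfF, hlt⟩ := H (lift A) (ContinuousMap.const K y)
      ((ContinuousMap.norm_le _ zero_le_one).2 (fun t => hy)) ε hε
    have h1 := hrad F f hF hf hfF
    have h2 : ‖(lift A) (fun _ : Fin k => ContinuousMap.const K y)‖ = ‖A (fun _ => y)‖ := by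
      have : (lift A) (fun _ : Fin k => ContinuousMap.const K y) = ContinuousMap.const K (A (fun _ => y)) := by
        ext t; rfl
      rw [this]
      apply le_antisymm
      · exact (ContinuousMap.norm_le _ (norm_nonneg _)).2 (fun t => le_rfl)
      · obtain ⟨t₀⟩ := (inferInstance : Nonempty K)
        exact (ContinuousMap.const K (A (fun _ => y))).norm_coe_le_norm t₀
    rw [h2] at hlt
    exact absurd hlt (not_lt.mpr h1)

end Pool.Agent.S05335
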