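import Pool.Statements.S05792
import Pool.Agent.J4H87.ES.Fin

set_option autoImplicit false
open scoped InnerProductSpace
open Pool Pool.MP_ace6cd_an

namespace Pool.Agent.S05792

/-- The negation of the preceding statement: For a bounded operator A on a complex Hilbert space whose closed invariant subspaces are all closed spans of eigenvectors, every operator leaving those subspaces invariant is a weak-operator limit of polynomials in A, i.e. A is reflexive. -/
theorem result :
    ¬ (∀ (H : Type) [NormedAddCommGroup H] [InnerProductSpace ℂ H] [CompleteSpace H]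
      (A : H →L[ℂ] H),
      (∀ M : Submodule ℂ H, IsClosed (M : Set H) → (∀ x ∈ M, A x ∈ M) →
        M = (Submodule.span ℂ {x : H | x ∈ M ∧ ∃ c : ℂ, A x = c • x}).topologicalClosure) →
      ∀ B : H →L[ℂ] H,
        (∀ M : Submodule ℂ H, IsClosed (M : Set H) → (∀ x ∈ M, A x ∈ M) →
          ∀ x ∈ M, B x ∈ M) →
        ∀ (s : Finset (H × H)) (ε : ℝ), 0 < ε →
          ∃ p : Polynomial ℂ, ∀ z ∈ s,
            ‖⟪(B - Polynomial.aeval A p) z.1, z.2⟫_ℂ‖ < ε) :=
  Pool.Agent.J4H87.ES.main

end Pool.Agent.S05792
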