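import Pool.Statements.S06520
import Pool.Agent.J4H52.IQ.Final

set_option autoImplicit false
open Pool Pool.MP_e7dc85_an

namespace Pool.Agent.S06520

/-- The generators of the free group and their inverses. -/
def gen (p : Fin 2 × Bool) : FreeGroup (Fin 2) :=
  if p.2 then FreeGroup.of p.1 else (FreeGroup.of p.1)⁻¹

lemma gen_closure : Submonoid.closure (Set.range gen) = ⊤ := by
  rw [eq_top_iff]
  rintro z -
  induction z using FreeGroup.induction_on with
  | C1 => exact Submonoid.one_mem _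
  | of x => exact Submonoid.subset_closure ⟨(x, true), by simp [gen]⟩
  | inv_of x _ => exact Submonoid.subset_closure ⟨(x, false), by simp [gen]⟩
  | mul x y hx hy => exact Submonoid.mul_mem _ hx hy

/-- The negation of the preceding statement: There is a closed two-sided ideal of codimension exactly 4 in the convolution algebra ℓ¹ of the free group on two generators such that the linear span of products of pairs of elements of the ideal is not the whole ideal. -/
theorem result :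
    ¬ (∃ I : Submodule ℂ (lp (fun _ : FreeGroup (Fin 2) => ℂ) 1),
      IsClosed (I : Set (lp (fun _ : FreeGroup (Fin 2) => ℂ) 1)) ∧
      (∀ a ∈ I, ∀ b c : lp (fun _ : FreeGroup (Fin 2) => ℂ) 1,
        (∀ x : FreeGroup (Fin 2),
          (c : FreeGroup (Fin 2) → ℂ) x
            = ∑' y : FreeGroup (Fin 2),
                (a : FreeGroup (Fin 2) → ℂ) y * (b : FreeGroup (Fin 2) → ℂ) (y⁻¹ * x)) →
        c ∈ I) ∧
      (∀ a ∈ I, ∀ b c : lp (fun _ : FreeGroup (Fin 2) => ℂ) 1,
        (∀ x : FreeGroup (Fin 2),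
          (c : FreeGroup (Fin 2) → ℂ) x
            = ∑' y : FreeGroup (Fin 2),
                (b : FreeGroup (Fin 2) → ℂ) y * (a : FreeGroup (Fin 2) → ℂ) (y⁻¹ * x)) →
        c ∈ I) ∧
      Module.finrank ℂ ((lp (fun _ : FreeGroup (Fin 2) => ℂ) 1) ⧸ I) = 4 ∧
      ∃ c ∈ I, c ∉ Submodule.span ℂ
        {d : lp (fun _ : FreeGroup (Fin 2) => ℂ) 1 |
          ∃ a ∈ I, ∃ b ∈ I, ∀ x : FreeGroup (Fin 2),
            (d : FreeGroup (Fin 2) → ℂ) x
              = ∑' y : FreeGroup (Fin 2),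
                  (a : FreeGroup (Fin 2) → ℂ) y * (b : FreeGroup (Fin 2) → ℂ) (y⁻¹ * x)}) := by
  rintro ⟨I, hI, hr, hl, hfin, c, hc, hcs⟩
  have hfin' : Module.Finite ℂ ((lp (fun _ : FreeGroup (Fin 2) => ℂ) 1) ⧸ I) :=
    Module.finite_of_finrank_pos (by rw [hfin]; norm_num)
  obtain ⟨x₁, hx₁, y₁, hy₁, x₂, hx₂, y₂, hy₂, h⟩ :=
    Pool.Agent.J4H52.IQ.cofinite (G := FreeGroup (Fin 2)) gen gen_closure I hI
      (fun b x hx => hl x hx b _ fun z => H937R3.L1.convL_apply b x z)
      (fun b x hx => hr x hx b _ fun z => H937R3.L1.convL_apply x b z)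
      (hfin := hfin') c hc
  apply hcs
  have hspan : ∀ a ∈ I, ∀ b ∈ I, (H937R3.L1.convL a b) ∈ Submodule.span ℂ
        {d : lp (fun _ : FreeGroup (Fin 2) => ℂ) 1 |
          ∃ a ∈ I, ∃ b ∈ I, ∀ x : FreeGroup (Fin 2),
            (d : FreeGroup (Fin 2) → ℂ) x
              = ∑' y : FreeGroup (Fin 2),
                  (a : FreeGroup (Fin 2) → ℂ) y * (b : FreeGroup (Fin 2) → ℂ) (y⁻¹ * x)} := by
    intro a ha b hb
    exact Submodule.subset_span ⟨a, ha, b, hb, fun z => H937R3.L1.convL_apply a b z⟩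
  rw [h]
  exact Submodule.add_mem _ (hspan x₁ hx₁ y₁ hy₁) (hspan x₂ hx₂ y₂ hy₂)

end Pool.Agent.S06520
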