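import Pool.Statements.S09637
-- import your own Pool.Agent.* helpers here

set_option autoImplicit false
open Pool Pool.MP_7a5332_co

namespace Pool.Agent.S09637

open Finset

section
variable {V : Type*} [DecidableEq V] (G : SimpleGraph V) [DecidableRel G.Adj]

/-- degree of `v` into the set `S` -/
def dg (S : Finset V) (v : V) : ℕ := (S.filter (fun w => G.Adj v w)).card

/-- number of ordered adjacent pairs in `S` -/
def DD (S : Finset V) : ℕ := ∑ v ∈ S, dg G S v

lemma dg_erase_of_adj {S : Finset V} {v w : V} (hv : v ∈ S) (h : G.Adj w v) :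
    dg G (S.erase v) w + 1 = dg G S w := by
  unfold dg
  have : (S.erase v).filter (fun x => G.Adj w x) = (S.filter (fun x => G.Adj w x)).erase v := by
    ext x; simp only [mem_filter, mem_erase]; tauto
  rw [this, Finset.card_erase_add_one]
  simp [hv, h]

lemma dg_erase_of_not_adj {S : Finset V} {v w : V} (h : ¬ G.Adj w v) :
    dg G (S.erase v) w = dg G S w := by
  unfold dg
  congr 1
  ext x; simp only [mem_filter, mem_erase]
  constructor
  · tauto
  · rintro ⟨h1, h2⟩
    refine ⟨⟨?_, h1⟩, h2⟩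
    rintro rfl; exact h h2

lemma DD_erase {S : Finset V} {v : V} (hv : v ∈ S) :
    DD G (S.erase v) + 2 * dg G S v = DD G S := by
  have h1 : DD G S = dg G S v + ∑ w ∈ S.erase v, dg G S w := by
    unfold DD; rw [Finset.add_sum_erase _ _ hv]
  have h2 : ∑ w ∈ S.erase v, dg G S w
      = ∑ w ∈ S.erase v, (dg G (S.erase v) w + if G.Adj w v then 1 else 0) := by
    apply Finset.sum_congr rfl
    intro w _
    split_ifs with h
    · rw [dg_erase_of_adj G hv h]
    · rw [dg_erase_of_not_adj G h, add_zero]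
  have h3 : ∑ w ∈ S.erase v, (if G.Adj w v then 1 else 0) = dg G S v := by
    unfold dg
    rw [Finset.card_filter, ← Finset.add_sum_erase _ _ hv]
    simp [SimpleGraph.adj_comm]
  rw [h1, h2, Finset.sum_add_distrib, h3]
  unfold DD
  ring

lemma dg_add_le (hG : G.CliqueFree 3) (S : Finset V) {u v : V} (h : G.Adj u v) :
    dg G S u + dg G S v ≤ S.card := by
  unfold dg
  rw [← Finset.card_union_of_disjoint]
  · apply Finset.card_le_card
    intro x; simp only [mem_union, mem_filter]; tauto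
  · rw [Finset.disjoint_left]
    intro w h1 h2
    simp only [mem_filter] at h1 h2
    apply hG {u, v, w}
    rw [SimpleGraph.is3Clique_triple_iff]
    exact ⟨h, h1.2, h2.2⟩

lemma mantel (hG : G.CliqueFree 3) (S : Finset V) : 2 * DD G S ≤ S.card ^ 2 := by
  have e1 : ∑ u ∈ S, (dg G S u) ^ 2 = ∑ u ∈ S, ∑ v ∈ S, if G.Adj u v then dg G S u else 0 := by
    apply Finset.sum_congr rfl
    intro u _
    rw [← Finset.sum_filter, Finset.sum_const, smul_eq_mul]
    unfold dg; ring
  have e2 : ∑ u ∈ S, (dg G S u) ^ 2 = ∑ u ∈ S, ∑ v ∈ S, if G.Adj u v then dg G S v else 0 := by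
    rw [Finset.sum_comm, e1]
    apply Finset.sum_congr rfl
    intro u _
    apply Finset.sum_congr rfl
    intro v _
    simp only [SimpleGraph.adj_comm]
  have e3 : 2 * ∑ u ∈ S, (dg G S u) ^ 2 ≤ S.card * DD G S := by
    have : 2 * ∑ u ∈ S, (dg G S u) ^ 2
        = ∑ u ∈ S, ∑ v ∈ S, if G.Adj u v then (dg G S u + dg G S v) else 0 := by
      rw [two_mul]
      nth_rewrite 1 [e1]
      rw [e2, ← Finset.sum_add_distrib]
      apply Finset.sum_congr rfl
      intro u _
      rw [← Finset.sum_add_distrib]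
      apply Finset.sum_congr rfl
      intro v _
      split_ifs <;> simp
    rw [this]
    unfold DD
    rw [Finset.mul_sum]
    apply Finset.sum_le_sum
    intro u _
    calc ∑ v ∈ S, (if G.Adj u v then (dg G S u + dg G S v) else 0)
        ≤ ∑ v ∈ S, (if G.Adj u v then S.card else 0) := by
          apply Finset.sum_le_sum
          intro v _
          split_ifs with h
          · exact dg_add_le G hG S h
          · exact le_rfl
      _ = S.card * dg G S u := by
          rw [← Finset.sum_filter, Finset.sum_const, smul_eq_mul]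
          unfold dg; ring
  have e4 : (DD G S) ^ 2 ≤ S.card * ∑ u ∈ S, (dg G S u) ^ 2 := by
    unfold DD
    exact sq_sum_le_card_mul_sum_sq
  by_cases h0 : DD G S = 0
  · rw [h0]; positivity
  · have h5 : 2 * (DD G S) ^ 2 ≤ S.card ^ 2 * DD G S := by
      calc 2 * (DD G S) ^ 2 ≤ 2 * (S.card * ∑ u ∈ S, (dg G S u) ^ 2) := by omega
        _ = S.card * (2 * ∑ u ∈ S, (dg G S u) ^ 2) := by ring
        _ ≤ S.card * (S.card * DD G S) := Nat.mul_le_mul_left _ e3
        _ = _ := by ring
    have h6 : 2 * DD G S * DD G S ≤ S.card ^ 2 * DD G S := by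
      calc 2 * DD G S * DD G S = 2 * (DD G S) ^ 2 := by ring
        _ ≤ _ := h5
    exact Nat.le_of_mul_le_mul_right h6 (Nat.pos_of_ne_zero h0)

/-- two-colouring of a dense set, as a function on `V`. -/
lemma two_col [Fintype V] (hG : G.CliqueFree 3) (S : Finset V) (h6 : 6 ≤ S.card)
    (hd : ∀ v ∈ S, 12 * S.card ≤ 25 * dg G S v + 6) :
    ∃ f : V → Bool, ∀ u ∈ S, ∀ v ∈ S, G.Adj u v → f u ≠ f v := by
  classical
  let H : SimpleGraph S := G.comap (Subtype.val : S → V)
  have hH : H.CliqueFree 3 := hG.comap ⟨(SimpleGraph.Embedding.comap ⟨Subtype.val, Subtype.val_injective⟩ G).toCopy⟩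
  have hdeg : ∀ v : S, dg G S v.1 = H.degree v := by
    intro v
    unfold dg SimpleGraph.degree
    rw [← Finset.card_image_of_injective (H.neighborFinset v) Subtype.val_injective]
    congr 1
    ext x
    simp only [mem_filter, mem_image, SimpleGraph.mem_neighborFinset, Subtype.exists, exists_and_right,
      exists_eq_right]
    constructor
    · rintro ⟨h1, h2⟩; exact ⟨h1, h2⟩
    · rintro ⟨h1, h2⟩; exact ⟨h1, h2⟩
  have : Nonempty S := by
    have : S.Nonempty := Finset.card_pos.mp (by omega)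
    exact this.to_subtype
  have hmin : (3 * 2 - 4) * Fintype.card S / (3 * 2 - 1) < H.minDegree := by
    obtain ⟨v, hv⟩ := H.exists_minimal_degree_vertex
    rw [hv, ← hdeg v, Fintype.card_coe]
    have := hd v.1 v.2
    omega
  have hcol := SimpleGraph.colorable_of_cliqueFree_lt_minDegree (r := 2) hH hmin
  obtain ⟨C⟩ := hcol
  refine ⟨fun v => if h : v ∈ S then decide (C ⟨v, h⟩ = 0) else false, ?_⟩
  intro u hu v hv huv
  simp only [hu, hv, dif_pos]
  have hne : C ⟨u, hu⟩ ≠ C ⟨v, hv⟩ := C.valid (show H.Adj ⟨u, hu⟩ ⟨v, hv⟩ from huv)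
  intro hEq
  apply hne
  rw [decide_eq_decide] at hEq
  have h2 : ∀ x y : Fin 2, (x = 0 ↔ y = 0) → x = y := by decide
  exact h2 _ _ hEq

omit [DecidableEq V] in
lemma inter2 {B X Y : Finset V} (hX : X ⊆ B) (hY : Y ⊆ B) (h : B.card < X.card + Y.card) :
    ∃ x, x ∈ X ∧ x ∈ Y := by
  classical
  by_contra hc
  push Not at hc
  have hd : Disjoint X Y := Finset.disjoint_left.mpr hc
  have := Finset.card_le_card (Finset.union_subset hX hY)
  rw [Finset.card_union_of_disjoint hd] at this
  omega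

omit [DecidableEq V] in
lemma inter3 {B X Y Z : Finset V} (hX : X ⊆ B) (hY : Y ⊆ B) (hZ : Z ⊆ B)
    (h : 2 * B.card < X.card + Y.card + Z.card) : ∃ x, x ∈ X ∧ x ∈ Y ∧ x ∈ Z := by
  classical
  have h1 := Finset.card_union_add_card_inter X Y
  have h2 := Finset.card_le_card (Finset.union_subset hX hY)
  obtain ⟨x, hx, hz⟩ := inter2 (B := B) (X := X ∩ Y) (Y := Z)
    (Finset.inter_subset_left.trans hX) hZ (by omega)
  rw [Finset.mem_inter] at hx
  exact ⟨x, hx.1, hx.2, hz⟩

/-- the private neighbour outside `S`. -/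
lemma priv (hcol : ¬ G.Colorable 3) (hedge : ∀ e ∈ G.edgeSet, (G.deleteEdges {e}).Colorable 3)
    (S A B : Finset V) (hAS : A ⊆ S) (hBS : B ⊆ S) (hAB : Disjoint A B) (hs : S ⊆ A ∪ B)
    (h6 : 6 ≤ S.card)
    (hAi : ∀ u ∈ A, ∀ v ∈ A, ¬ G.Adj u v)
    (hdA : ∀ v ∈ A, 12 * S.card ≤ 25 * (B.filter (fun w => G.Adj v w)).card + 6)
    (hdB : ∀ v ∈ B, 12 * S.card ≤ 25 * (A.filter (fun w => G.Adj v w)).card + 6)
    {a b : V} (ha : a ∈ A) (hb : b ∈ B) (hab : G.Adj a b) :
    ∃ r, r ∉ S ∧ G.Adj a r ∧ ∀ a' ∈ A, G.Adj b a' → a' ≠ a → ¬ G.Adj a' r := by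
  have hcard : S.card = A.card + B.card := by
    rw [← Finset.card_union_of_disjoint hAB]
    exact le_antisymm (Finset.card_le_card hs) (Finset.card_le_card (Finset.union_subset hAS hBS))
  have hAl : 12 * S.card ≤ 25 * A.card + 6 := by
    have := hdB b hb
    have h2 := Finset.card_filter_le A (fun w => G.Adj b w)
    omega
  have hBl : 12 * S.card ≤ 25 * B.card + 6 := by
    have := hdA a ha
    have h2 := Finset.card_filter_le B (fun w => G.Adj a w)
    omega
  have hne : a ≠ b := hab.ne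
  obtain ⟨φ⟩ := hedge s(a, b) hab
  -- adjacency in the deleted graph
  have hadj : ∀ u v, G.Adj u v → ¬ (u = a ∧ v = b) → ¬ (u = b ∧ v = a) → φ u ≠ φ v := by
    intro u v huv h1 h2
    apply φ.valid
    rw [SimpleGraph.deleteEdges_adj]
    refine ⟨huv, ?_⟩
    simp only [Set.mem_singleton_iff, Sym2.eq_iff]
    tauto
  -- `φ a = φ b`
  have hk : φ a = φ b := by
    by_contra hne'
    apply hcol
    refine ⟨SimpleGraph.Coloring.mk φ ?_⟩
    intro u v huv
    by_cases h1 : u = a ∧ v = b
    · rw [h1.1, h1.2]; exact hne'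
    · by_cases h2 : u = b ∧ v = a
      · rw [h2.1, h2.2]; exact fun h => hne' h.symm
      · exact hadj u v huv h1 h2
  -- notation
  set A1 := (A.filter (fun w => G.Adj b w)).erase a with hA1
  set B1 := (B.filter (fun w => G.Adj a w)).erase b with hB1
  have hA1c : A1.card + 1 = (A.filter (fun w => G.Adj b w)).card := by
    rw [hA1]; apply Finset.card_erase_add_one
    rw [mem_filter]; exact ⟨ha, hab.symm⟩
  have hB1c : B1.card + 1 = (B.filter (fun w => G.Adj a w)).card := by
    rw [hB1]; apply Finset.card_erase_add_one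
    rw [mem_filter]; exact ⟨hb, hab⟩
  have hdb := hdB b hb
  have hda := hdA a ha
  have hA1m : ∀ x, x ∈ A1 ↔ x ≠ a ∧ x ∈ A ∧ G.Adj b x := by
    intro x; rw [hA1, mem_erase, mem_filter]
  have hB1m : ∀ x, x ∈ B1 ↔ x ≠ b ∧ x ∈ B ∧ G.Adj a x := by
    intro x; rw [hB1, mem_erase, mem_filter]
  have hA1A : A1 ⊆ A := fun x hx => ((hA1m x).1 hx).2.1
  have hB1B : B1 ⊆ B := fun x hx => ((hB1m x).1 hx).2.1
  have hnAB : ∀ x ∈ A, x ∈ B → False := fun x h1 h2 => (Finset.disjoint_left.mp hAB h1 h2)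
  have hA1k : ∀ x ∈ A1, φ x ≠ φ a := by
    intro x hx
    obtain ⟨h1, h2, h3⟩ := (hA1m x).1 hx
    rw [hk]
    apply hadj x b h3.symm
    · rintro ⟨h, -⟩; exact h1 h
    · rintro ⟨h, -⟩; exact hnAB x h2 (h ▸ hb)
  have hB1k : ∀ x ∈ B1, φ x ≠ φ a := by
    intro x hx
    obtain ⟨h1, h2, h3⟩ := (hB1m x).1 hx
    apply hadj x a h3.symm
    · rintro ⟨h, -⟩; exact hnAB a ha (h ▸ h2)
    · rintro ⟨h, -⟩; exact h1 h
  obtain ⟨a1, ha1⟩ : A1.Nonempty := Finset.card_pos.mp (by omega)
  -- all of `A1` has the colour of `a1`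
  have hA1i : ∀ x ∈ A1, φ x = φ a1 := by
    intro x hx
    by_contra hx1
    obtain ⟨y, hy1, hy2, hy3⟩ := inter3 (B := B) (X := B1) (Y := B.filter (fun w => G.Adj a1 w))
      (Z := B.filter (fun w => G.Adj x w)) hB1B (Finset.filter_subset _ _) (Finset.filter_subset _ _)
      (by
        have h1 := hdA a1 (hA1A ha1)
        have h2 := hdA x (hA1A hx)
        omega)
    rw [mem_filter] at hy2 hy3
    have e1 : φ a1 ≠ φ y := by
      apply hadj a1 y hy2.2
      · rintro ⟨h, -⟩; exact ((hA1m a1).1 ha1).1 h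
      · rintro ⟨h, -⟩; exact hnAB a1 (hA1A ha1) (h ▸ hb)
    have e2 : φ x ≠ φ y := by
      apply hadj x y hy3.2
      · rintro ⟨h, -⟩; exact ((hA1m x).1 hx).1 h
      · rintro ⟨h, -⟩; exact hnAB x (hA1A hx) (h ▸ hb)
    have e3 := hB1k y hy1
    have e4 := hA1k x hx
    have e5 := hA1k a1 ha1
    have key : ∀ p q r t : Fin 3, p ≠ q → p ≠ t → q ≠ t → r ≠ p → r ≠ q → r ≠ t → False := by decide
    exact key (φ x) (φ a1) (φ y) (φ a) hx1 e4 e5 (Ne.symm e2) (Ne.symm e1) e3
  -- no vertex of `B1` has the colour of `a1`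
  have hB1i : ∀ y ∈ B1, φ y ≠ φ a1 := by
    intro y hy hyc
    obtain ⟨x, hx1, hx2⟩ := inter2 (B := A) (X := A1) (Y := A.filter (fun w => G.Adj y w)) hA1A
      (Finset.filter_subset _ _) (by
        have h1 := hdB y (hB1B hy)
        omega)
    rw [mem_filter] at hx2
    have e1 : φ y ≠ φ x := by
      apply hadj y x hx2.2
      · rintro ⟨h, -⟩; exact hnAB a ha (h ▸ hB1B hy)
      · rintro ⟨h, -⟩; exact ((hB1m y).1 hy).1 h
    exact e1 (by rw [hyc, hA1i x hx1])
  have hik : φ a1 ≠ φ a := hA1k a1 ha1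
  -- a neighbour of `a` with colour `φ a1`
  obtain ⟨r, hr1, hr2⟩ : ∃ r, G.Adj a r ∧ φ r = φ a1 := by
    by_contra hc
    push Not at hc
    apply hcol
    refine ⟨SimpleGraph.Coloring.mk (Function.update φ a (φ a1)) ?_⟩
    intro u v huv
    by_cases hu : u = a
    · subst hu
      rw [Function.update_self, Function.update_of_ne huv.ne']
      exact fun h => hc v huv h.symm
    · by_cases hv : v = a
      · subst hv
        rw [Function.update_self, Function.update_of_ne hu]
        exact hc u huv.symm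
      · rw [Function.update_of_ne hu, Function.update_of_ne hv]
        exact hadj u v huv (fun h => hu h.1) (fun h => hv h.2)
  have hrb : r ≠ b := by
    rintro rfl
    exact hik (by rw [← hr2, hk])
  refine ⟨r, ?_, hr1, ?_⟩
  · intro hrS
    rcases Finset.mem_union.mp (hs hrS) with h | h
    · exact hAi a ha r h hr1
    · exact hB1i r ((hB1m r).2 ⟨hrb, h, hr1⟩) hr2
  · intro a' ha' hba' hne' hadj'
    have h1 : a' ∈ A1 := (hA1m a').2 ⟨hne', ha', hba'⟩
    have h2 := hA1i a' h1
    have : φ a' ≠ φ r := by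
      apply hadj a' r hadj'
      · rintro ⟨h, -⟩; exact hne' h
      · rintro ⟨h, -⟩; exact hnAB a' ha' (h ▸ hb)
    exact this (by rw [h2, hr2])

/-- A set `S` of large minimum degree leaves many vertices outside. -/
lemma outside [Fintype V] (hG : G.CliqueFree 3) (hcol : ¬ G.Colorable 3)
    (hedge : ∀ e ∈ G.edgeSet, (G.deleteEdges {e}).Colorable 3)
    (S : Finset V) (h6 : 6 ≤ S.card) (hd : ∀ v ∈ S, 12 * S.card ≤ 25 * dg G S v + 6) :
    37 * S.card ≤ 25 * Fintype.card V + 6 := by
  obtain ⟨f, hf⟩ := two_col G hG S h6 hd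
  obtain ⟨b, hb⟩ : S.Nonempty := Finset.card_pos.mp (by omega)
  set A := S.filter (fun v => f v ≠ f b) with hA
  set B := S.filter (fun v => f v = f b) with hB
  have hbB : b ∈ B := by rw [hB, mem_filter]; exact ⟨hb, rfl⟩
  have hAS : A ⊆ S := Finset.filter_subset _ _
  have hBS : B ⊆ S := Finset.filter_subset _ _
  have hAB : Disjoint A B := by
    rw [Finset.disjoint_left]; intro x h1 h2
    rw [hA, mem_filter] at h1; rw [hB, mem_filter] at h2
    exact h1.2 h2.2
  have hs : S ⊆ A ∪ B := by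
    intro x hx
    rw [mem_union, hA, hB, mem_filter, mem_filter]
    by_cases h : f x = f b
    · right; exact ⟨hx, h⟩
    · left; exact ⟨hx, h⟩
  have hbool : ∀ p q r : Bool, p ≠ q → r ≠ q → p = r := by decide
  have hAi : ∀ u ∈ A, ∀ v ∈ A, ¬ G.Adj u v := by
    intro u hu v hv huv
    rw [hA, mem_filter] at hu hv
    exact hf u hu.1 v hv.1 huv (hbool _ _ _ hu.2 hv.2)
  have hBi : ∀ u ∈ B, ∀ v ∈ B, ¬ G.Adj u v := by
    intro u hu v hv huv
    rw [hB, mem_filter] at hu hv
    exact hf u hu.1 v hv.1 huv (hu.2.trans hv.2.symm)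
  have hdA : ∀ v ∈ A, 12 * S.card ≤ 25 * (B.filter (fun w => G.Adj v w)).card + 6 := by
    intro v hv
    have h1 := hd v (hAS hv)
    have h2 : dg G S v ≤ (B.filter (fun w => G.Adj v w)).card := by
      apply Finset.card_le_card
      intro x hx
      rw [mem_filter] at hx ⊢
      refine ⟨?_, hx.2⟩
      rcases Finset.mem_union.mp (hs hx.1) with h | h
      · exact absurd hx.2 (hAi v hv x h)
      · exact h
    omega
  have hdB : ∀ v ∈ B, 12 * S.card ≤ 25 * (A.filter (fun w => G.Adj v w)).card + 6 := by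
    intro v hv
    have h1 := hd v (hBS hv)
    have h2 : dg G S v ≤ (A.filter (fun w => G.Adj v w)).card := by
      apply Finset.card_le_card
      intro x hx
      rw [mem_filter] at hx ⊢
      refine ⟨?_, hx.2⟩
      rcases Finset.mem_union.mp (hs hx.1) with h | h
      · exact h
      · exact absurd hx.2 (hBi v hv x h)
    omega
  have hpriv : ∀ a ∈ A.filter (fun w => G.Adj b w),
      ∃ r, r ∉ S ∧ G.Adj a r ∧ ∀ a' ∈ A, G.Adj b a' → a' ≠ a → ¬ G.Adj a' r := by
    intro a ha
    rw [mem_filter] at ha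
    exact priv G hcol hedge S A B hAS hBS hAB hs h6 hAi hdA hdB ha.1 hbB ha.2.symm
  choose! r hr1 hr2 hr3 using hpriv
  have hcard : (A.filter (fun w => G.Adj b w)).card ≤ (Finset.univ \ S).card := by
    apply Finset.card_le_card_of_injOn r
    · intro a ha
      have := hr1 a ha
      simp only [coe_sdiff, coe_univ, Set.mem_sdiff, Set.mem_univ, true_and, SetLike.mem_coe]
      exact this
    · intro a ha a' ha' heq
      by_contra hne
      have ha1 := ha'
      rw [Finset.mem_coe, mem_filter] at ha1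
      apply hr3 a ha a' ha1.1 ha1.2 (Ne.symm hne)
      rw [heq]
      exact hr2 a' ha'
  have h5 := hdB b hbB
  rw [Finset.card_sdiff_of_subset (Finset.subset_univ S), Finset.card_univ] at hcard
  have h7 : S.card ≤ Fintype.card V := Finset.card_le_univ S
  omega

lemma exists_dense [Fintype V] :
    ∃ S : Finset V, (∀ v ∈ S, 12 * S.card ≤ 25 * dg G S v + 6) ∧
      (25 * DD G Finset.univ : ℤ) - 12 * (Fintype.card V : ℤ) ^ 2
        ≤ 25 * DD G S - 12 * (S.card : ℤ) ^ 2 := by
  obtain ⟨S, -, hS⟩ := Finset.exists_max_image (Finset.univ : Finset (Finset V))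
    (fun S => (25 * DD G S : ℤ) - 12 * (S.card : ℤ) ^ 2) ⟨∅, Finset.mem_univ _⟩
  refine ⟨S, ?_, ?_⟩
  · intro v hv
    have h1 := hS (S.erase v) (Finset.mem_univ _)
    have h2 := DD_erase G hv
    have h3 := Finset.card_erase_add_one hv
    have h2' : (DD G (S.erase v) : ℤ) + 2 * dg G S v = DD G S := by exact_mod_cast h2
    have h3' : (((S.erase v).card : ℤ)) = S.card - 1 := by
      have : ((S.erase v).card : ℤ) + 1 = S.card := by exact_mod_cast h3
      linarith
    rw [h3', ← h2'] at h1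
    have : (12 : ℤ) * S.card ≤ 25 * dg G S v + 6 := by nlinarith
    exact_mod_cast this
  · have := hS Finset.univ (Finset.mem_univ _)
    simpa using this

/-- The main estimate: an edge-critical triangle-free graph that is not 3-colourable has at most
`49/200 n^2` edges (`n ≥ 6`). -/
lemma main_bound [Fintype V] (hG : G.CliqueFree 3) (hcol : ¬ G.Colorable 3)
    (hedge : ∀ e ∈ G.edgeSet, (G.deleteEdges {e}).Colorable 3) (hn : 9 ≤ Fintype.card V) :
    100 * DD G Finset.univ ≤ 49 * Fintype.card V ^ 2 := by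
  by_contra hlt
  push Not at hlt
  obtain ⟨S, hd, hS⟩ := exists_dense G
  have hm := mantel G hG S
  have hlt' : (49 : ℤ) * (Fintype.card V : ℤ) ^ 2 < 100 * DD G Finset.univ := by exact_mod_cast hlt
  have hm' : (2 : ℤ) * DD G S ≤ (S.card : ℤ) ^ 2 := by exact_mod_cast hm
  have h1 : (Fintype.card V : ℤ) ^ 2 < 2 * (S.card : ℤ) ^ 2 := by nlinarith
  have hn' : (9 : ℤ) ≤ Fintype.card V := by exact_mod_cast hn
  have h6 : 6 ≤ S.card := by
    by_contra h
    push Not at h
    have h' : (S.card : ℤ) ≤ 5 := by exact_mod_cast (by omega : S.card ≤ 5)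
    have h0 : (0 : ℤ) ≤ S.card := by positivity
    nlinarith
  have h2 := outside G hG hcol hedge S h6 hd
  have h2' : (37 : ℤ) * S.card ≤ 25 * Fintype.card V + 6 := by exact_mod_cast h2
  have h0 : (0 : ℤ) ≤ S.card := by positivity
  nlinarith

end

/-- There is a constant c < 1/4 such that, for all large n, every triangle-free 4-critical graph on n vertices (chromatic number 4, no isolated vertices, each edge deletion leaves it 3-colorable) has at most c·n² edges. -/
theorem result :
    ∃ c : ℝ, c < 1 / 4 ∧ ∃ N : ℕ, ∀ n : ℕ, N ≤ n → ∀ G : SimpleGraph (Fin n),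
      G.CliqueFree 3 → G.chromaticNumber = 4 → (∀ v : Fin n, ∃ w : Fin n, G.Adj v w) →
      (∀ e ∈ G.edgeSet, (G.deleteEdges {e}).Colorable 3) →
      (G.edgeSet.ncard : ℝ) ≤ c * (n : ℝ) ^ 2 := by
  refine ⟨49 / 200, by norm_num, 9, ?_⟩
  intro n hn G hG hχ _ hedge
  classical
  have hcol : ¬ G.Colorable 3 := by
    intro h
    have := h.chromaticNumber_le
    rw [hχ] at this
    exact absurd this (by decide)
  have h1 := main_bound G hG hcol hedge (by simpa using hn)
  have h2 : DD G Finset.univ = 2 * G.edgeFinset.card := by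
    rw [← G.sum_degrees_eq_twice_card_edges]
    unfold DD
    apply Finset.sum_congr rfl
    intro v _
    unfold dg SimpleGraph.degree
    congr 1
    ext x
    simp
  have h3 : G.edgeSet.ncard = G.edgeFinset.card := by
    rw [← SimpleGraph.coe_edgeFinset, Set.ncard_coe_finset]
  rw [h3]
  rw [h2, Fintype.card_fin] at h1
  have h4 : (100 : ℝ) * (2 * (G.edgeFinset.card : ℝ)) ≤ 49 * (n : ℝ) ^ 2 := by exact_mod_cast h1
  linarith

end Pool.Agent.S09637
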