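import Pool.Statements.S09692

set_option autoImplicit false
open Pool Pool.MP_7cf704_co

namespace Pool.Agent.S09692

/-!
The counterexample is the complement of the following 30-regular graph `H` on 162 vertices. There
are three gadgets. Each gadget has

* four classes of nine vertices each (vertices `inl (x, i)` with `x : Fin 4`),
* six single vertices, one for each pair of classes (vertices `inr (inl p)`),
* a class of twelve vertices (vertices `inr (inr i)`).

Within a gadget, two vertices of different classes `x` are joined, the vertex of a pair is joined to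
the vertices of the two classes of the pair and to the twelve special vertices. Special vertices
of different gadgets are joined. There are no other edges.

If `s` and `t` are disjoint maximal independent sets of `H`, then in each gadget `s` or `t` contains
one of the special vertices: otherwise, as `s` and `t` each meet at most one of the four classes,
there are two classes which meet neither of `s` and `t`, and the vertex of this pair of classes
lies in both `s` and `t`. But then `s` or `t` contains special vertices of two gadgets.
-/

/-- the vertices of one gadget -/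
abbrev B := (Fin 4 × Fin 9) ⊕ (Fin 6 ⊕ Fin 12)

/-- the vertices -/
abbrev V := Fin 3 × B

/-- the two classes of a pair -/
def mem (p : Fin 6) (x : Fin 4) : Bool := ((![3, 5, 9, 6, 10, 12] : Fin 6 → ℕ) p).testBit x

/-- the edges inside a gadget -/
def inB : B → B → Bool
  | .inl (x, _), .inl (y, _) => !(x == y)
  | .inl (x, _), .inr (.inl p) => mem p x
  | .inr (.inl p), .inl (x, _) => mem p x
  | .inr (.inl _), .inr (.inr _) => true
  | .inr (.inr _), .inr (.inl _) => true
  | .inl _, .inr (.inr _) => false
  | .inr (.inr _), .inl _ => false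
  | .inr (.inl _), .inr (.inl _) => false
  | .inr (.inr _), .inr (.inr _) => false

/-- the special vertices -/
def isA : B → Bool
  | .inr (.inr _) => true
  | .inr (.inl _) => false
  | .inl _ => false

/-- adjacency -/
def adjB (u v : V) : Bool := if u.1 = v.1 then inB u.2 v.2 else (isA u.2 && isA v.2)

lemma inB_symm (a b : B) : inB a b = inB b a := by
  rcases a with ⟨x, i⟩ | p | i <;> rcases b with ⟨y, j⟩ | q | j <;> simp [inB, Bool.beq_comm]

lemma inB_irrefl (a : B) : inB a a = false := by
  rcases a with ⟨x, i⟩ | p | i <;> simp [inB]

/-- the graph whose complement is the counterexample -/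
def H : SimpleGraph V where
  Adj u v := adjB u v = true
  symm := by
    constructor
    intro u v h
    unfold adjB at h ⊢
    by_cases huv : u.1 = v.1
    · rw [if_pos huv] at h
      rw [if_pos huv.symm, inB_symm]
      exact h
    · rw [if_neg huv] at h
      rw [if_neg (Ne.symm huv), Bool.and_comm]
      exact h
  loopless := ⟨by
    intro u h
    unfold adjB at h
    rw [if_pos rfl, inB_irrefl] at h
    exact absurd h (by decide)⟩

instance : DecidableRel H.Adj := fun u v => inferInstanceAs (Decidable (adjB u v = true))

lemma H_regular : H.IsRegularOfDegree 30 := by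
  intro v
  rw [← SimpleGraph.card_neighborFinset_eq_degree, SimpleGraph.neighborFinset_eq_filter]
  revert v
  decide +kernel

/-- A vertex outside a maximal clique of the complement has a neighbour in it. -/
lemma dom {s : Set V} (hs : Maximal Hᶜ.IsClique s) {v : V} (hv : v ∉ s) : ∃ u ∈ s, H.Adj v u := by
  by_contra h
  push Not at h
  apply hv
  have h1 : Hᶜ.IsClique (insert v s) := by
    rw [SimpleGraph.isClique_insert]
    refine ⟨hs.1, fun u hu hne => ?_⟩
    rw [SimpleGraph.compl_adj]
    exact ⟨hne, h u hu⟩
  exact hs.2 h1 (Set.subset_insert v s) (Set.mem_insert v s)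

lemma indep {s : Set V} (hs : Maximal Hᶜ.IsClique s) {u v : V} (hu : u ∈ s) (hv : v ∈ s) :
    ¬ H.Adj u v := by
  intro h
  have h1 := hs.1 hu hv h.ne
  rw [SimpleGraph.compl_adj] at h1
  exact h1.2 h

/-- Two sets, each meeting at most one of four classes, both miss two of the classes. -/
lemma pair_free : ∀ f h : Fin 4 → Bool, (∀ x y, f x = true → f y = true → x = y) →
    (∀ x y, h x = true → h y = true → x = y) →
    ∃ p : Fin 6, ∀ x, mem p x = true → f x = false ∧ h x = false := by
  decide +kernel

/-- If no special vertex of the gadget `g` lies in `s` and no vertex of the two classes of the pair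
`p`, then the vertex of the pair lies in `s`. -/
lemma pair_mem {s : Set V} (hs : Maximal Hᶜ.IsClique s) {g : Fin 3} {p : Fin 6}
    (hA : ∀ i, ((g, Sum.inr (Sum.inr i)) : V) ∉ s)
    (hK : ∀ x i, mem p x = true → ((g, Sum.inl (x, i)) : V) ∉ s) :
    ((g, Sum.inr (Sum.inl p)) : V) ∈ s := by
  by_contra hv
  obtain ⟨⟨g', b⟩, hu, hadj⟩ := dom hs hv
  have hadj' : adjB (g, Sum.inr (Sum.inl p)) (g', b) = true := hadj
  unfold adjB at hadj'
  by_cases hg : g = g'
  · subst hg
    simp only [if_true] at hadj'
    rcases b with ⟨x, i⟩ | q | i
    · exact hK x i hadj' hu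
    · exact absurd hadj' (by simp [inB])
    · exact hA i hu
  · simp only [hg, if_false, isA] at hadj'
    exact absurd hadj' (by simp)

/-- A maximal independent set meets at most one of the four classes of a gadget. -/
lemma class_unique {s : Set V} (hs : Maximal Hᶜ.IsClique s) {g : Fin 3} {x y : Fin 4} {i j : Fin 9}
    (h1 : ((g, Sum.inl (x, i)) : V) ∈ s) (h2 : ((g, Sum.inl (y, j)) : V) ∈ s) : x = y := by
  by_contra hne
  apply indep hs h1 h2
  show adjB _ _ = true
  simp [adjB, inB, hne]

/-- One of two disjoint maximal independent sets contains a special vertex of the gadget. -/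
lemma gadget {s t : Set V} (hs : Maximal Hᶜ.IsClique s) (ht : Maximal Hᶜ.IsClique t)
    (hst : Disjoint s t) (g : Fin 3) :
    (∃ i, ((g, Sum.inr (Sum.inr i)) : V) ∈ s) ∨ (∃ i, ((g, Sum.inr (Sum.inr i)) : V) ∈ t) := by
  classical
  by_contra hno
  push Not at hno
  obtain ⟨p, hp⟩ := pair_free (fun x => decide (∃ i, ((g, Sum.inl (x, i)) : V) ∈ s))
    (fun x => decide (∃ i, ((g, Sum.inl (x, i)) : V) ∈ t))
    (by
      intro x y hx hy
      rw [decide_eq_true_eq] at hx hy
      obtain ⟨i, hi⟩ := hx
      obtain ⟨j, hj⟩ := hy
      exact class_unique hs hi hj)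
    (by
      intro x y hx hy
      rw [decide_eq_true_eq] at hx hy
      obtain ⟨i, hi⟩ := hx
      obtain ⟨j, hj⟩ := hy
      exact class_unique ht hi hj)
  have h1 : ((g, Sum.inr (Sum.inl p)) : V) ∈ s := by
    refine pair_mem hs hno.1 ?_
    intro x i hx hmem
    have := (hp x hx).1
    rw [decide_eq_false_iff_not] at this
    exact this ⟨i, hmem⟩
  have h2 : ((g, Sum.inr (Sum.inl p)) : V) ∈ t := by
    refine pair_mem ht hno.2 ?_
    intro x i hx hmem
    have := (hp x hx).2
    rw [decide_eq_false_iff_not] at this
    exact this ⟨i, hmem⟩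
  exact Set.disjoint_left.1 hst h1 h2

/-- A maximal independent set does not contain special vertices of two gadgets. -/
lemma special {s : Set V} (hs : Maximal Hᶜ.IsClique s) {g g' : Fin 3} (hg : g ≠ g') {i j : Fin 12}
    (h1 : ((g, Sum.inr (Sum.inr i)) : V) ∈ s) (h2 : ((g', Sum.inr (Sum.inr j)) : V) ∈ s) :
    False := by
  apply indep hs h1 h2
  show adjB _ _ = true
  simp [adjB, isA, hg]

/-- The negation of the preceding statement: Every finite simple graph that is regular of some degree and is not complete contains two disjoint cliques, each maximal under inclusion. -/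
theorem result :
    ¬ (∀ (V : Type) [Fintype V] [DecidableEq V] (G : SimpleGraph V) [DecidableRel G.Adj] (d : ℕ),
      G.IsRegularOfDegree d → G ≠ ⊤ →
        ∃ s t : Set V, Maximal G.IsClique s ∧ Maximal G.IsClique t ∧ Disjoint s t) := by
  intro hall
  obtain ⟨s, t, hs, ht, hst⟩ := hall V Hᶜ (Fintype.card V - 1 - 30)
    H_regular.compl (by
      intro h
      have h1 : (Hᶜ).Adj ((0, Sum.inr (Sum.inr 0)) : V) ((1, Sum.inr (Sum.inr 0)) : V) := by
        rw [h, SimpleGraph.top_adj]
        decide
      rw [SimpleGraph.compl_adj] at h1
      exact h1.2 (by decide))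
  have h0 := gadget hs ht hst 0
  have h1 := gadget hs ht hst 1
  have h2 := gadget hs ht hst 2
  rcases h0 with ⟨i, hi⟩ | ⟨i, hi⟩ <;> rcases h1 with ⟨j, hj⟩ | ⟨j, hj⟩ <;>
    rcases h2 with ⟨k, hk⟩ | ⟨k, hk⟩
  · exact special hs (by decide) hi hj
  · exact special hs (by decide) hi hj
  · exact special hs (by decide) hi hk
  · exact special ht (by decide) hj hk
  · exact special hs (by decide) hj hk
  · exact special ht (by decide) hi hk
  · exact special ht (by decide) hi hj
  · exact special ht (by decide) hi hj

end Pool.Agent.S09692
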