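import Pool.Statements.S11612
import Pool.Agent.H279R3.TreeHelly

/-!
# Treewidth versus the product of tree-independence number and tree-chromatic number

The graph: a cycle with the five vertices `0, 1, 2, 3, 4` together with subdivided chords
`1 - 5 - 3`, `2 - 6 - 4`, `4 - 7 - 8 - 1`, `0 - 9 - 2`, `0 - 10 - 3`. It contains a subdivision of the complete
graph on five vertices, hence every tree decomposition has a bag with five vertices. The
decomposition with the bag `{0, 1, 2, 3, 4}` shows that the tree-independence number is at most two.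
Deleting the vertex `0` leaves a bipartite graph, and the closed neighbourhood of `0` induces a star; hence
the tree-chromatic number is at most two.
-/

set_option autoImplicit false
open Pool Pool.MP_d20af1_co

namespace Pool.Agent.S11612

/-- the tree given by a parent function on `Fin n` -/
def parTree (n : ℕ) (par : Fin n → Fin n) : SimpleGraph (Fin n) where
  Adj i j := (par i = j ∧ j < i) ∨ (par j = i ∧ i < j)
  symm := ⟨by intro i j h; tauto⟩
  loopless := ⟨by intro i h; rcases h with h | h <;> exact lt_irrefl _ h.2⟩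

lemma parTree_isTree {n : ℕ} (par : Fin (n + 1) → Fin (n + 1))
    (hlt : ∀ i, 0 < i → par i < i) : (parTree (n + 1) par).IsTree := by
  classical
  have hreach : ∀ k : ℕ, ∀ i : Fin (n + 1), i.val ≤ k →
      (parTree (n + 1) par).Reachable i 0 := by
    intro k
    induction k with
    | zero =>
      intro i hi
      have : i = 0 := Fin.ext (by simpa using hi)
      rw [this]
    | succ k ih =>
      intro i hi
      by_cases h : i = 0
      · rw [h]
      · have hl := hlt i (Fin.pos_of_ne_zero h)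
        have hadj : (parTree (n + 1) par).Adj i (par i) := Or.inl ⟨rfl, hl⟩
        refine hadj.reachable.trans (ih _ ?_)
        have := Fin.lt_def.mp hl
        omega
  have hconn : (parTree (n + 1) par).Connected := by
    refine SimpleGraph.Connected.mk ?_
    intro x y
    exact (hreach _ x le_rfl).trans (hreach _ y le_rfl).symm
  rw [SimpleGraph.isTree_iff_connected_and_card]
  refine ⟨hconn, ?_⟩
  have h1 := hconn.card_vert_le_card_edgeSet_add_one
  have h2 : Nat.card (parTree (n + 1) par).edgeSet ≤ n := by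
    let f : {i : Fin (n + 1) // 0 < i} → (parTree (n + 1) par).edgeSet := fun i =>
      ⟨s(i.1, par i.1), Or.inl ⟨rfl, hlt _ i.2⟩⟩
    have hf : Function.Surjective f := by
      rintro ⟨e, he⟩
      induction e using Sym2.ind with
      | _ x y =>
        rw [SimpleGraph.mem_edgeSet] at he
        rcases he with ⟨h4, h5⟩ | ⟨h4, h5⟩
        · refine ⟨⟨x, lt_of_le_of_lt (Fin.zero_le y) h5⟩, ?_⟩
          apply Subtype.ext
          simp only [f]
          rw [h4]
        · refine ⟨⟨y, lt_of_le_of_lt (Fin.zero_le x) h5⟩, ?_⟩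
          apply Subtype.ext
          simp only [f]
          rw [Sym2.eq_swap, h4]
    have h3 := Nat.card_le_card_of_surjective f hf
    refine h3.trans ?_
    have h4 : Nat.card {i : Fin (n + 1) // 0 < i} = n := by
      rw [Nat.card_eq_fintype_card, Fintype.card_subtype]
      have : (Finset.univ.filter (fun i : Fin (n + 1) => 0 < i)) = Finset.univ.erase 0 := by
        ext i
        simp only [Finset.mem_filter, Finset.mem_univ, true_and, Finset.mem_erase, and_true,
          ne_eq]
        exact Fin.pos_iff_ne_zero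
      rw [this, Finset.card_erase_of_mem (Finset.mem_univ _), Finset.card_univ, Fintype.card_fin]
      rfl
    omega
  have hn : Nat.card (Fin (n + 1)) = n + 1 := by simp
  rw [hn] at h1 ⊢
  omega

/-- a set of nodes closed under taking parents, except for its top node, induces a connected graph -/
lemma induce_connected {n : ℕ} (par : Fin (n + 1) → Fin (n + 1)) (S : Set (Fin (n + 1)))
    (τ : Fin (n + 1)) (hτ : τ ∈ S) (h : ∀ i ∈ S, i ≠ τ → par i ∈ S ∧ par i < i) :
    ((parTree (n + 1) par).induce S).Connected := by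
  have hreach : ∀ k : ℕ, ∀ i : Fin (n + 1), ∀ hi : i ∈ S, i.val ≤ k →
      ((parTree (n + 1) par).induce S).Reachable ⟨i, hi⟩ ⟨τ, hτ⟩ := by
    intro k
    induction k with
    | zero =>
      intro i hi hk
      by_cases hne : i = τ
      · subst hne; exact SimpleGraph.Reachable.refl _
      · obtain ⟨_, h2⟩ := h i hi hne
        have := Fin.lt_def.mp h2
        omega
    | succ k ih =>
      intro i hi hk
      by_cases hne : i = τ
      · subst hne; exact SimpleGraph.Reachable.refl _
      · obtain ⟨h1, h2⟩ := h i hi hne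
        have hadj : ((parTree (n + 1) par).induce S).Adj ⟨i, hi⟩ ⟨par i, h1⟩ := Or.inl ⟨rfl, h2⟩
        refine hadj.reachable.trans (ih _ h1 ?_)
        have := Fin.lt_def.mp h2
        omega
  have : Nonempty S := ⟨⟨τ, hτ⟩⟩
  refine SimpleGraph.Connected.mk ?_
  rintro ⟨x, hx⟩ ⟨y, hy⟩
  exact (hreach _ x hx le_rfl).trans (hreach _ y hy le_rfl).symm

/-- the edges -/
def E : List (Fin 11 × Fin 11) :=
  [(0, 1), (1, 2), (2, 3), (3, 4), (4, 0), (1, 5), (5, 3), (2, 6), (6, 4), (4, 7), (7, 8), (8, 1),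
    (0, 9), (9, 2), (0, 10), (10, 3)]

/-- the graph -/
def G : SimpleGraph (Fin 11) where
  Adj a b := (a, b) ∈ E ∨ (b, a) ∈ E
  symm := ⟨by intro i j h; tauto⟩
  loopless := ⟨by decide⟩

instance : DecidableRel G.Adj := fun a b =>
  inferInstanceAs (Decidable ((a, b) ∈ E ∨ (b, a) ∈ E))

/-- parent function of the first tree -/
def par1 : Fin 7 → Fin 7 := ![0, 0, 0, 0, 0, 0, 5]

/-- bags of the first decomposition -/
def B1 : Fin 7 → Finset (Fin 11) :=
  ![{0, 1, 2, 3, 4}, {1, 5, 3}, {2, 6, 4}, {0, 9, 2}, {0, 10, 3}, {4, 7, 1}, {7, 8, 1}]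

/-- top nodes of the first decomposition -/
def top1 : Fin 11 → Fin 7 := ![0, 0, 0, 0, 0, 1, 2, 5, 6, 3, 4]

/-- parent function of the second tree -/
def par2 : Fin 2 → Fin 2 := ![0, 0]

/-- bags of the second decomposition -/
def B2 : Fin 2 → Finset (Fin 11) :=
  ![{1, 2, 3, 4, 5, 6, 7, 8, 9, 10}, {0, 1, 4, 9, 10}]

/-- top nodes of the second decomposition -/
def top2 : Fin 11 → Fin 2 := ![1, 0, 0, 0, 0, 0, 0, 0, 0, 0, 0]

/-- the 2-colouring of the bags of the second decomposition -/
def col2 : Fin 2 → Fin 11 → Fin 2 :=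
  ![![0, 0, 1, 0, 1, 1, 0, 0, 1, 0, 1], ![0, 1, 0, 0, 1, 0, 0, 0, 0, 1, 1]]

/-- branch sets of a complete minor with five vertices -/
def U : Fin 5 → Finset (Fin 11) := ![{0, 9, 10}, {1, 5, 7, 8}, {2, 6}, {3}, {4}]

lemma walk_out {n : ℕ} {T : SimpleGraph (Fin n)} {S : Set (Fin n)} {a b : S}
    (p : (T.induce S).Walk a b) : ∃ q : T.Walk a.1 b.1, ∀ x ∈ q.support, x ∈ S := by
  induction p with
  | nil =>
    rename_i u
    exact ⟨SimpleGraph.Walk.nil, by intro x hx; simp at hx; subst hx; exact u.2⟩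
  | @cons a b c h _ ih =>
    obtain ⟨q, hq⟩ := ih
    have h' : T.Adj a.1 b.1 := h
    refine ⟨SimpleGraph.Walk.cons h' q, ?_⟩
    intro x hx
    rw [SimpleGraph.Walk.support_cons, List.mem_cons] at hx
    rcases hx with rfl | hx
    · exact a.2
    · exact hq x hx

lemma alpha_bags : ∀ i : Fin 7, ∀ a ∈ B1 i, ∀ b ∈ B1 i, ∀ c ∈ B1 i, a ≠ b → a ≠ c → b ≠ c →
    G.Adj a b ∨ G.Adj a c ∨ G.Adj b c := by
  decide +kernel

lemma wconn_U : ∀ c : Fin 5, H279R3.WConn G (U c : Set (Fin 11)) := by
  intro c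
  -- every vertex of a branch set is adjacent to its first vertex or has a neighbour adjacent to it
  have key : ∀ c : Fin 5, ∃ z ∈ U c, ∀ x ∈ U c, x = z ∨ G.Adj x z ∨
      ∃ y ∈ U c, G.Adj x y ∧ G.Adj y z := by decide +kernel
  obtain ⟨z, hz, hzx⟩ := key c
  have hw : ∀ x ∈ (U c : Set (Fin 11)), ∃ q : G.Walk x z, ∀ w ∈ q.support, w ∈ (U c : Set (Fin 11)) := by
    intro x hx
    rcases hzx x (by simpa using hx) with rfl | h | ⟨y, hy, h1, h2⟩
    · exact ⟨SimpleGraph.Walk.nil, by intro w hw; simp at hw; subst hw; exact hx⟩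
    · refine ⟨SimpleGraph.Walk.cons h SimpleGraph.Walk.nil, ?_⟩
      intro w hw
      simp at hw
      rcases hw with rfl | rfl
      · exact hx
      · simpa using hz
    · refine ⟨SimpleGraph.Walk.cons h1 (SimpleGraph.Walk.cons h2 SimpleGraph.Walk.nil), ?_⟩
      intro w hw
      simp at hw
      rcases hw with rfl | rfl | rfl
      · exact hx
      · simpa using hy
      · simpa using hz
  intro i hi j hj
  obtain ⟨q, hq⟩ := hw i hi
  obtain ⟨q', hq'⟩ := hw j hj
  refine ⟨q.append q'.reverse, fun w hw => ?_⟩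
  rw [SimpleGraph.Walk.mem_support_append_iff] at hw
  rcases hw with hw | hw
  · exact hq w hw
  · rw [SimpleGraph.Walk.support_reverse, List.mem_reverse] at hw
    exact hq' w hw

lemma dec_alpha : ∃ (n : ℕ) (T : SimpleGraph (Fin n)) (B : Fin n → Finset (Fin 11)),
    T.IsTree ∧
    (∀ u v : Fin 11, G.Adj u v → ∃ i, u ∈ B i ∧ v ∈ B i) ∧
    (∀ v : Fin 11, (T.induce {i : Fin n | v ∈ B i}).Connected) ∧
    (∀ i : Fin n, ∀ S : Finset (Fin 11), S ⊆ B i → G.IsIndepSet (S : Set (Fin 11)) →
      S.card ≤ 2) := by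
  refine ⟨7, parTree 7 par1, B1, parTree_isTree par1 (by decide), by decide +kernel, ?_, ?_⟩
  · intro v
    exact induce_connected par1 _ (top1 v)
      ((show ∀ v : Fin 11, v ∈ B1 (top1 v) by decide +kernel) v)
      ((show ∀ v : Fin 11, ∀ i : Fin 7, v ∈ B1 i → i ≠ top1 v → v ∈ B1 (par1 i) ∧ par1 i < i by
        decide +kernel) v)
  · intro i S hS hind
    by_contra hc
    obtain ⟨a, ha, b, hb, c, hc', hab, hac, hbc⟩ := Finset.two_lt_card.mp (not_le.mp hc)
    rcases alpha_bags i a (hS ha) b (hS hb) c (hS hc') hab hac hbc with h | h | h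
    · exact hind (by simpa using ha) (by simpa using hb) hab h
    · exact hind (by simpa using ha) (by simpa using hc') hac h
    · exact hind (by simpa using hb) (by simpa using hc') hbc h

lemma dec_chi : ∃ (n : ℕ) (T : SimpleGraph (Fin n)) (B : Fin n → Finset (Fin 11)),
    T.IsTree ∧
    (∀ u v : Fin 11, G.Adj u v → ∃ i, u ∈ B i ∧ v ∈ B i) ∧
    (∀ v : Fin 11, (T.induce {i : Fin n | v ∈ B i}).Connected) ∧
    (∀ i : Fin n, (G.induce (B i : Set (Fin 11))).Colorable 2) := by
  refine ⟨2, parTree 2 par2, B2, parTree_isTree par2 (by decide), by decide +kernel, ?_, ?_⟩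
  · intro v
    exact induce_connected par2 _ (top2 v)
      ((show ∀ v : Fin 11, v ∈ B2 (top2 v) by decide +kernel) v)
      ((show ∀ v : Fin 11, ∀ i : Fin 2, v ∈ B2 i → i ≠ top2 v → v ∈ B2 (par2 i) ∧ par2 i < i by
        decide +kernel) v)
  · intro i
    refine ⟨SimpleGraph.Coloring.mk (fun v => col2 i v.1) ?_⟩
    rintro ⟨u, hu⟩ ⟨v, hv⟩ h
    have key : ∀ i : Fin 2, ∀ u ∈ B2 i, ∀ v ∈ B2 i, G.Adj u v → col2 i u ≠ col2 i v := by
      decide +kernel
    exact key i u (by simpa using hu) v (by simpa using hv) h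

lemma no_dec (n : ℕ) (T : SimpleGraph (Fin n)) (B : Fin n → Finset (Fin 11)) (hT : T.IsTree)
    (he : ∀ u v : Fin 11, G.Adj u v → ∃ i, u ∈ B i ∧ v ∈ B i)
    (hv : ∀ v : Fin 11, (T.induce {i : Fin n | v ∈ B i}).Connected)
    (hcard : ∀ i : Fin n, (B i).card ≤ 4) : False := by
  have hv' : ∀ v i j, v ∈ B i → v ∈ B j → ∃ q : T.Walk i j, ∀ x ∈ q.support, v ∈ B x := by
    intro v i j hi hj
    obtain ⟨p⟩ := (hv v).preconnected ⟨i, hi⟩ ⟨j, hj⟩
    exact walk_out p
  have hcov : ∀ v, ∃ i, v ∈ B i := by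
    intro v
    obtain ⟨i⟩ := (hv v).nonempty
    exact ⟨i.1, i.2⟩
  have hadj : ∀ c d : Fin 5, ∃ u ∈ U c, ∃ v ∈ U d, u = v ∨ G.Adj u v := by decide +kernel
  have hdisj : ∀ c d : Fin 5, ∀ u ∈ U c, u ∈ U d → c = d := by decide +kernel
  obtain ⟨i, hi⟩ := H279R3.helly hT (fun c : Fin 5 => {i | ∃ v ∈ (U c : Set (Fin 11)), v ∈ B i})
    (fun c => H279R3.trace_conn he hv' (wconn_U c)) (by
      intro c d
      obtain ⟨u, hu, v, hvd, h⟩ := hadj c d
      rcases h with rfl | h
      · obtain ⟨i, hi⟩ := hcov u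
        exact ⟨i, ⟨u, by simpa using hu, hi⟩, ⟨u, by simpa using hvd, hi⟩⟩
      · obtain ⟨i, hi, hj⟩ := he u v h
        exact ⟨i, ⟨u, by simpa using hu, hi⟩, ⟨v, by simpa using hvd, hj⟩⟩)
  choose f hf hfB using hi
  have hinj : Function.Injective f := by
    intro c d hcd
    exact hdisj c d (f c) (by simpa using hf c) (by rw [hcd]; simpa using hf d)
  have h5 : (Finset.univ.image f).card = 5 := by
    rw [Finset.card_image_of_injective _ hinj, Finset.card_univ, Fintype.card_fin]
  have h6 : (Finset.univ.image f).card ≤ (B i).card := Finset.card_le_card (by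
    intro x hx
    rw [Finset.mem_image] at hx
    obtain ⟨c, -, rfl⟩ := hx
    exact hfB c)
  have := hcard i
  omega

/-- The negation of the preceding statement: For every finite graph G and all a, k: if G has a tree decomposition whose bags all have independence number at most a, and one whose bags all induce k-colorable subgraphs, then G has a tree decomposition with all bags of size at most a·k. -/
theorem result :
    ¬ (∀ (V : Type) [Fintype V] (G : SimpleGraph V) (a k : ℕ),
      (∃ (n : ℕ) (T : SimpleGraph (Fin n)) (B : Fin n → Finset V),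
        T.IsTree ∧
        (∀ u v : V, G.Adj u v → ∃ i, u ∈ B i ∧ v ∈ B i) ∧
        (∀ v : V, (T.induce {i : Fin n | v ∈ B i}).Connected) ∧
        (∀ i : Fin n, ∀ S : Finset V, S ⊆ B i → G.IsIndepSet (S : Set V) → S.card ≤ a)) →
      (∃ (n : ℕ) (T : SimpleGraph (Fin n)) (B : Fin n → Finset V),
        T.IsTree ∧
        (∀ u v : V, G.Adj u v → ∃ i, u ∈ B i ∧ v ∈ B i) ∧
        (∀ v : V, (T.induce {i : Fin n | v ∈ B i}).Connected) ∧
        (∀ i : Fin n, (G.induce (B i : Set V)).Colorable k)) →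
      (∃ (n : ℕ) (T : SimpleGraph (Fin n)) (B : Fin n → Finset V),
        T.IsTree ∧
        (∀ u v : V, G.Adj u v → ∃ i, u ∈ B i ∧ v ∈ B i) ∧
        (∀ v : V, (T.induce {i : Fin n | v ∈ B i}).Connected) ∧
        (∀ i : Fin n, (B i).card ≤ a * k))) := by
  intro hall
  obtain ⟨n, T, B, hT, he, hv, hcard⟩ := hall (Fin 11) G 2 2 dec_alpha dec_chi
  exact no_dec n T B hT he hv hcard

end Pool.Agent.S11612
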