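import Pool.Statements.S12674
-- import your own Pool.Agent.* helpers here
import Pool.Agent.J4H55.GK.Fin

set_option autoImplicit false
open Pool Pool.MP_0333c9_gt

namespace Pool.Agent.S12674

/-- The negation of the preceding statement: If a Tychonoff space X has C_p(X) homeomorphic to C_p(Y) for some compact Hausdorff Y, then X is a k-space and hemicompact, i.e. there are compact sets K_n with every compact set inside some K_n. -/
theorem result :
    ¬ (∀ (X Y : Type) [TopologicalSpace X] [T35Space X] [TopologicalSpace Y] [CompactSpace Y]
      [T2Space Y],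
      Nonempty ({f : X → ℝ // Continuous f} ≃ₜ {g : Y → ℝ // Continuous g}) →
        CompactlyGeneratedSpace X ∧
          ∃ K : ℕ → Set X, (∀ n, IsCompact (K n)) ∧
            ∀ C : Set X, IsCompact C → ∃ n, C ⊆ K n) := by
  intro h
  exact Pool.Agent.J4H55.GKF.not_k
    (h Pool.Agent.Helper854.Usp.X1 unitInterval Pool.Agent.J4H55.GKF.homeo).1

end Pool.Agent.S12674
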