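import Pool.Statements.S13155
import Pool.Agent.J4H93.Yam6
-- import your own Pool.Agent.* helpers here

set_option autoImplicit false
open Pool Pool.MP_5008c3_gt

namespace Pool.Agent.S13155

/-- For every metrizable space X whose non-isolated points form a compact set, the subspace of the free topological group on X of elements of reduced length at most 4 is Fréchet–Urysohn. -/
theorem result :
    ∀ (X : Type) [τ : TopologicalSpace X] [TopologicalSpace.MetrizableSpace X],
      IsCompact {x : X | ¬ IsOpen ({x} : Set X)} →
      @FrechetUrysohnSpace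
        {w : FreeGroup X // ∃ L : List (X × Bool), L.length ≤ 4 ∧ FreeGroup.mk L = w}
        (TopologicalSpace.induced Subtype.val
          (sInf {t : GroupTopology (FreeGroup X) |
            @Continuous X (FreeGroup X) τ t.toTopologicalSpace FreeGroup.of}).toTopologicalSpace) := by
  intro X τ _ hK
  let _ : MetricSpace X := TopologicalSpace.metrizableSpaceMetric X
  have hK' : IsCompact (Pool.Agent.J4H93.Yam.K X) := hK
  let T : TopologicalSpace (FreeGroup X) := Pool.Agent.J4H93.Yam.FT X
  show @FrechetUrysohnSpace
        {w : FreeGroup X // ∃ L : List (X × Bool), L.length ≤ 4 ∧ FreeGroup.mk L = w}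
        (TopologicalSpace.induced Subtype.val T)
  refine @FrechetUrysohnSpace.mk _ (TopologicalSpace.induced Subtype.val T) ?_
  intro s g hg
  have h1 : (g : FreeGroup X) ∈ @closure _ T (Subtype.val '' s) := (@closure_induced _ _ T _ _ _).1 hg
  obtain ⟨a, ha, ha'⟩ := Pool.Agent.J4H93.Yam.main_seq hK' (Subtype.val '' s)
    (by rintro _ ⟨w, -, rfl⟩; exact w.2) g.1 h1
  choose b hb hb' using ha
  refine ⟨b, hb, ?_⟩
  rw [nhds_induced, Filter.tendsto_comap_iff]
  refine ha'.congr ?_
  intro n
  exact (hb' n).symm

end Pool.Agent.S13155
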