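import Pool.Statements.S18875
import Pool.Agent.J4H56.SM.Nec
import Pool.Agent.J4H56.SM.SuffA
import Pool.Agent.J4H56.SM.SuffB

set_option autoImplicit false
open scoped NumberField
open Pool Pool.MP_ed3ef1_nt

namespace Pool.Agent.S18875

/-- For every number field K and tuple a in O_K^n: some nonzero K-conjugates α_i (repeats allowed) satisfy Σ a_i α_i = 0 iff the strong archimedean and nonarchimedean absolute value criteria hold, or Σ a_i ω_i = 0 for some roots of unity ω_i. -/
theorem result :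
  ∀ (K : Type) [Field K] [NumberField K] (n : ℕ) (a : Fin n → 𝓞 K),
    (∃ α : Fin n → AlgebraicClosure K,
        (∀ i, α i ≠ 0) ∧ (∀ i j, minpoly K (α i) = minpoly K (α j)) ∧
        ∑ i, algebraMap K (AlgebraicClosure K) (a i : K) * α i = 0) ↔
    (((∀ v : NumberField.InfinitePlace K, ∀ i : Fin n,
          v (a i : K) < ∑ j ∈ Finset.univ.erase i, v (a j : K)) ∧
      (∀ v : IsDedekindDomain.HeightOneSpectrum (𝓞 K), ∀ i : Fin n,
          ∃ j : Fin n, j ≠ i ∧ v.valuation K (a i : K) ≤ v.valuation K (a j : K))) ∨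
     ∃ ω : Fin n → AlgebraicClosure K,
        (∀ i, ∃ m : ℕ, 0 < m ∧ ω i ^ m = 1) ∧
        ∑ i, algebraMap K (AlgebraicClosure K) (a i : K) * ω i = 0) := by
  intro K _ _ n a
  constructor
  · intro hS
    by_cases ha : ∃ j, a j ≠ 0
    · by_cases hex : ∃ v : NumberField.InfinitePlace K, ∃ i : Fin n,
          ∑ j ∈ Finset.univ.erase i, v (a j : K) ≤ v (a i : K)
      · obtain ⟨v, i, hv⟩ := hex
        exact Or.inr (Pool.Agent.J4H56.SM.nec_arch n a hS ha v i hv)
      · push Not at hex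
        exact Or.inl ⟨hex, fun v i => Pool.Agent.J4H56.SM.nec_nonarch n a hS ha v i⟩
    · push Not at ha
      exact Or.inr ⟨fun _ => 1, fun _ => ⟨1, one_pos, one_pow 1⟩, by simp [ha]⟩
  · rintro (⟨h1, h2⟩ | ⟨ω, hω, h⟩)
    · exact Pool.Agent.J4H56.SM.suff_a K n a h1 h2
    · exact Pool.Agent.J4H56.SM.suff_b K n a ω hω h

end Pool.Agent.S18875
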